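import Pool.Agent.Work.MP_ce2d68_np.Interface

/-! Block CHP: the polynomials `EE` (helper46). -/

set_option autoImplicit false

open Polynomial Filter Topology
open scoped ComplexConjugate

namespace Pool.Agent.Work.MP_ce2d68_np

open Pool.Agent.Work.MP_ce2d68_st

theorem CHP_real_q (a b : ℝ) : RealP (X ^ 2 - C ((a : ℝ) : ℂ) * X + C ((b : ℝ) : ℂ)) := by
  unfold RealP
  simp [Polynomial.map_sub, Polynomial.map_add, Polynomial.map_mul, Polynomial.map_pow]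

theorem CHP_q_deg (a b : ℂ) : (X ^ 2 - C a * X + C b : ℂ[X]).natDegree = 2 ∧
    (X ^ 2 - C a * X + C b : ℂ[X]).Monic := by
  have h : (X ^ 2 - C a * X + C b : ℂ[X]) = X ^ 2 - (C a * X - C b) := by ring
  have hd : (C a * X - C b : ℂ[X]).degree < 2 := by
    refine lt_of_le_of_lt (degree_sub_le _ _) ?_
    rw [max_lt_iff]
    constructor
    · exact lt_of_le_of_lt (degree_C_mul_X_le a) (by decide)
    · exact lt_of_le_of_lt degree_C_le (by decide)
  have hm : (X ^ 2 - (C a * X - C b) : ℂ[X]).Monic := by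
    refine (monic_X_pow 2).sub_of_left ?_
    rw [degree_X_pow]
    exact hd
  refine ⟨?_, by rw [h]; exact hm⟩
  rw [h]
  have : (X ^ 2 - (C a * X - C b) : ℂ[X]).degree = 2 := by
    rw [degree_sub_eq_left_of_degree_lt]
    · exact degree_X_pow 2
    · rw [degree_X_pow]; exact hd
  exact natDegree_eq_of_degree_eq_some this

theorem CHP_main (R B : ℝ) : ∀ k : ℕ, (EE R B k).natDegree ≤ 2 * k ∧ (EE R B (k + 1)).Monic ∧
    (EE R B (k + 1)).natDegree = 2 * (k + 1) ∧ RealP (EE R B k) ∧ RealP (EE R B (k + 1)) ∧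
    (EE R B (k + 1)).eval 0 = (((R ^ 2) ^ (k + 1) : ℝ) : ℂ) := by
  intro k
  induction k with
  | zero =>
    refine ⟨?_, ?_, ?_, ?_, ?_, ?_⟩
    · show (C 2 : ℂ[X]).natDegree ≤ 2 * 0
      rw [natDegree_C]
    · exact (CHP_q_deg _ _).2
    · exact (CHP_q_deg _ _).1
    · show RealP (C 2 : ℂ[X])
      unfold RealP
      rw [Polynomial.map_C]
      congr 1
      exact Complex.conj_ofNat 2
    · exact CHP_real_q _ _
    · show (X ^ 2 - C ((R * (1 - B) : ℝ) : ℂ) * X + C ((R ^ 2 : ℝ) : ℂ) : ℂ[X]).eval 0 = _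
      simp
  | succ k ih =>
    obtain ⟨h1, h2, h3, h4, h5, h6⟩ := ih
    have hE : EE R B (k + 1 + 1) =
        (X ^ 2 - C ((R * (1 - B) : ℝ) : ℂ) * X + C ((R ^ 2 : ℝ) : ℂ)) * EE R B (k + 1)
        - C (((R * (1 + B) / 2) ^ 2 : ℝ) : ℂ) * X ^ 2 * EE R B k := rfl
    obtain ⟨q1, q2⟩ := CHP_q_deg ((R * (1 - B) : ℝ) : ℂ) ((R ^ 2 : ℝ) : ℂ)
    have hM : ((X ^ 2 - C ((R * (1 - B) : ℝ) : ℂ) * X + C ((R ^ 2 : ℝ) : ℂ)) *
        EE R B (k + 1)).Monic := q2.mul h2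
    have hD : ((X ^ 2 - C ((R * (1 - B) : ℝ) : ℂ) * X + C ((R ^ 2 : ℝ) : ℂ)) *
        EE R B (k + 1)).natDegree = 2 * (k + 1 + 1) := by
      rw [q2.natDegree_mul h2, q1, h3]
      ring
    have hd : (C (((R * (1 + B) / 2) ^ 2 : ℝ) : ℂ) * X ^ 2 * EE R B k).natDegree <
        ((X ^ 2 - C ((R * (1 - B) : ℝ) : ℂ) * X + C ((R ^ 2 : ℝ) : ℂ)) *
        EE R B (k + 1)).natDegree := by
      rw [hD]
      have e1 := natDegree_mul_le (p := C (((R * (1 + B) / 2) ^ 2 : ℝ) : ℂ) * X ^ 2)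
        (q := EE R B k)
      have e2 := natDegree_C_mul_X_pow_le (((R * (1 + B) / 2) ^ 2 : ℝ) : ℂ) 2
      omega
    refine ⟨h3.le, ?_, ?_, h5, ?_, ?_⟩
    · rw [hE]
      exact hM.sub_of_left (degree_lt_degree hd)
    · rw [hE, natDegree_sub_eq_left_of_natDegree_lt hd, hD]
    · rw [hE]
      have hq := CHP_real_q (R * (1 - B)) (R ^ 2)
      unfold RealP at hq h4 h5 ⊢
      rw [Polynomial.map_sub, Polynomial.map_mul, hq, h5, Polynomial.map_mul, Polynomial.map_mul, h4,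
        Polynomial.map_C, Polynomial.map_pow, Polynomial.map_X, Complex.conj_ofReal]
    · rw [hE]
      simp only [eval_sub, eval_mul, eval_add, eval_pow, eval_X, eval_C, h6]
      push_cast
      ring

theorem p_CHP : Stmt_CHP := by
  intro R B k hk
  obtain ⟨j, rfl⟩ : ∃ j, k = j + 1 := ⟨k - 1, by omega⟩
  obtain ⟨-, h2, h3, -, h5, h6⟩ := CHP_main R B j
  exact ⟨h2, h3, h5, h6⟩

end Pool.Agent.Work.MP_ce2d68_np
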