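import Pool.Agent.Work.MP_ce2d68_np.Interface

set_option autoImplicit false

open Polynomial Filter Topology
open scoped ComplexConjugate

namespace Pool.Agent.Work.MP_ce2d68_np

open Pool.Agent.Work.MP_ce2d68_st

theorem CHS_par (w : ℂ) (hw : w ≠ 0) :
    ‖w‖ + ‖w‖⁻¹ = (‖w + w⁻¹ - 2‖ + ‖w + w⁻¹ + 2‖) / 2 := by
  have hn : 0 < ‖w‖ := norm_pos_iff.mpr hw
  have h1 : w + w⁻¹ - 2 = (w - 1) ^ 2 / w := by
    field_simp
    ring
  have h2 : w + w⁻¹ + 2 = (w + 1) ^ 2 / w := by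
    field_simp
    ring
  rw [h1, h2, norm_div, norm_div, norm_pow, norm_pow]
  have hp := parallelogram_law_with_norm ℝ w 1
  rw [norm_one] at hp
  field_simp
  nlinarith [hp]

theorem p_CHS : Stmt_CHS := by
  intro R B z w hR hB hz hJ
  obtain ⟨hw1, hJ⟩ := hJ
  have hw : w ≠ 0 := by
    intro h
    rw [h, norm_zero] at hw1
    linarith
  have hr : 0 < ‖z‖ := norm_pos_iff.mpr hz
  have hl : 0 < R * (1 + B) / 2 := by
    have : 0 < 1 + B := by linarith
    positivity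
  rw [CHS_par w hw]
  set l : ℝ := R * (1 + B) / 2 with hldef
  have hlC : (l : ℂ) = (R : ℂ) * (1 + (B : ℂ)) / 2 := by
    rw [hldef]; push_cast; ring
  have e1 : (l : ℂ) * (w + w⁻¹ - 2) = (z - R) ^ 2 / z := by
    have : (l : ℂ) * (w + w⁻¹ - 2) = (l : ℂ) * (w + w⁻¹) - 2 * l := by ring
    rw [this, hJ, hlC]
    push_cast
    field_simp
    ring
  have e2 : (l : ℂ) * (w + w⁻¹ + 2) = (z ^ 2 + 2 * R * B * z + R ^ 2) / z := by
    have : (l : ℂ) * (w + w⁻¹ + 2) = (l : ℂ) * (w + w⁻¹) + 2 * l := by ring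
    rw [this, hJ, hlC]
    push_cast
    field_simp
    ring
  have hln : ‖(l : ℂ)‖ = l := by
    rw [Complex.norm_real, Real.norm_of_nonneg hl.le]
  have n1 : l * ‖w + w⁻¹ - 2‖ = 2 * R * (hh R z - cc z) := by
    have h := congrArg norm e1
    rw [norm_mul, hln, norm_div, norm_pow] at h
    rw [h]
    have hsq : ‖z - R‖ ^ 2 = ‖z‖ ^ 2 - 2 * R * z.re + R ^ 2 := by
      rw [← Complex.normSq_eq_norm_sq, ← Complex.normSq_eq_norm_sq, Complex.normSq_apply, Complex.normSq_apply]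
      simp
      ring
    rw [hsq]
    unfold hh cc
    field_simp
    ring
  have n2 : l * ‖w + w⁻¹ + 2‖ = 2 * R * √(hh R z ^ 2 + 2 * hh R z * cc z * B + B ^ 2 + cc z ^ 2 - 1) := by
    have h := congrArg norm e2
    rw [norm_mul, hln, norm_div] at h
    rw [h]
    have hsq : (‖z ^ 2 + 2 * R * B * z + R ^ 2‖ / ‖z‖) ^ 2
        = (2 * R) ^ 2 * (hh R z ^ 2 + 2 * hh R z * cc z * B + B ^ 2 + cc z ^ 2 - 1) := by
      have hz2 : ‖z‖ ^ 2 = z.re ^ 2 + z.im ^ 2 := by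
        rw [← Complex.normSq_eq_norm_sq, Complex.normSq_apply]; ring
      have hn : ‖z ^ 2 + 2 * R * B * z + R ^ 2‖ ^ 2
          = (z.re ^ 2 - z.im ^ 2 + 2 * R * B * z.re + R ^ 2) ^ 2 + (2 * z.re * z.im + 2 * R * B * z.im) ^ 2 := by
        rw [← Complex.normSq_eq_norm_sq, Complex.normSq_apply]
        have hre : (z ^ 2 + 2 * R * B * z + R ^ 2 : ℂ).re = z.re ^ 2 - z.im ^ 2 + 2 * R * B * z.re + R ^ 2 := by
          simp [pow_two]
        have him : (z ^ 2 + 2 * R * B * z + R ^ 2 : ℂ).im = 2 * z.re * z.im + 2 * R * B * z.im := by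
          simp [pow_two]
          ring
        rw [hre, him]
        ring
      rw [div_pow, hn]
      unfold hh cc
      have hR' : R ≠ 0 := hR.ne'
      have hr' : ‖z‖ ≠ 0 := hr.ne'
      set ρ := ‖z‖ with hρ
      set x := z.re with hx
      set y := z.im with hy
      have hy2 : y ^ 2 = ρ ^ 2 - x ^ 2 := by linarith
      rw [div_eq_iff (by positivity)]
      field_simp
      have : (x ^ 2 - y ^ 2 + 2 * R * B * x + R ^ 2) ^ 2 + (2 * x * y + 2 * R * B * y) ^ 2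
          = (2 * x ^ 2 - ρ ^ 2 + 2 * R * B * x + R ^ 2) ^ 2 + 4 * (x + R * B) ^ 2 * (ρ ^ 2 - x ^ 2) := by
        rw [← hy2]
        have : ρ ^ 2 = x ^ 2 + y ^ 2 := by linarith
        rw [this]
        ring
      nlinarith [this]
    have h0 : 0 ≤ ‖z ^ 2 + 2 * R * B * z + R ^ 2‖ / ‖z‖ := by positivity
    rw [← Real.sqrt_sq h0, hsq, Real.sqrt_mul (by positivity), Real.sqrt_sq (by positivity)]
  have h1B : 1 + B ≠ 0 := by linarith
  have m1 : ‖w + w⁻¹ - 2‖ = 2 * R * (hh R z - cc z) / l := by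
    rw [eq_div_iff hl.ne']; linarith
  have m2 : ‖w + w⁻¹ + 2‖ = 2 * R * √(hh R z ^ 2 + 2 * hh R z * cc z * B + B ^ 2 + cc z ^ 2 - 1) / l := by
    rw [eq_div_iff hl.ne']; linarith
  rw [m1, m2, hldef]
  have hR' : R ≠ 0 := hR.ne'
  field_simp
  try ring

end Pool.Agent.Work.MP_ce2d68_np
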