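import Pool.Agent.Work.MP_ce2d68_np.Interface

set_option autoImplicit false

open Polynomial Filter Topology
open scoped ComplexConjugate

namespace Pool.Agent.Work.MP_ce2d68_np

theorem p_CHV : Stmt_CHV := by
  intro R B z w _ _ hz hJ
  obtain ⟨hw1, hw⟩ := hJ
  have hw0 : w ≠ 0 := by
    rintro rfl
    rw [norm_zero] at hw1
    linarith
  have hwv : w * w⁻¹ = 1 := mul_inv_cancel₀ hw0
  generalize w⁻¹ = v at *
  have key : z ^ 2 - ((R * (1 - B) : ℝ) : ℂ) * z + ((R ^ 2 : ℝ) : ℂ) =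
      ((R * (1 + B) / 2 : ℝ) : ℂ) * z * (w + v) := by
    have h1 : ((R * (1 + B) / 2 : ℝ) : ℂ) * z * (w + v) =
        (((R * (1 + B) / 2 : ℝ) : ℂ) * (w + v)) * z := by ring
    rw [h1, hw]
    field_simp
    ring
  have hstep : ∀ k, (EE R B k).eval z = (((R * (1 + B) / 2 : ℝ) : ℂ) * z) ^ k * (w ^ k + v ^ k) ∧
      (EE R B (k + 1)).eval z =
        (((R * (1 + B) / 2 : ℝ) : ℂ) * z) ^ (k + 1) * (w ^ (k + 1) + v ^ (k + 1)) := by
    intro k
    induction k with
    | zero =>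
      refine ⟨?_, ?_⟩
      · simp only [EE, eval_C, pow_zero]
        norm_num
      · simp only [EE, eval_add, eval_sub, eval_mul, eval_pow, eval_X, eval_C, zero_add, pow_one]
        exact key
    | succ k ih =>
      refine ⟨ih.2, ?_⟩
      have h2 : (EE R B (k + 1 + 1)).eval z =
          (z ^ 2 - ((R * (1 - B) : ℝ) : ℂ) * z + ((R ^ 2 : ℝ) : ℂ)) * (EE R B (k + 1)).eval z -
            ((((R * (1 + B) / 2) ^ 2 : ℝ) : ℂ)) * z ^ 2 * (EE R B k).eval z := by
        simp only [EE, eval_add, eval_sub, eval_mul, eval_pow, eval_X, eval_C]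
      rw [h2, ih.1, ih.2, key]
      have h3 : (((R * (1 + B) / 2) ^ 2 : ℝ) : ℂ) = ((R * (1 + B) / 2 : ℝ) : ℂ) ^ 2 := by
        push_cast
        ring
      rw [h3]
      generalize ((R * (1 + B) / 2 : ℝ) : ℂ) = L
      linear_combination ((L * z) ^ (k + 2) * (w ^ k + v ^ k)) * hwv
  intro k
  exact (hstep k).1

end Pool.Agent.Work.MP_ce2d68_np
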