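import Pool.Agent.Work.MP_ce2d68_np.Interface

/-! Block CHX: existence of `w`. -/

set_option autoImplicit false

open Polynomial

namespace Pool.Agent.Work.MP_ce2d68_np

theorem CHX_root (v : ℂ) : ∃ w : ℂ, 1 ≤ ‖w‖ ∧ w + w⁻¹ = v := by
  obtain ⟨s, hs⟩ := IsAlgClosed.exists_pow_nat_eq (v ^ 2 - 4) (n := 2) two_pos
  have h0 : ((v + s) / 2) * ((v - s) / 2) = 1 := by
    have : ((v + s) / 2) * ((v - s) / 2) = (v ^ 2 - s ^ 2) / 4 := by ring
    rw [this, hs]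
    ring
  by_cases h : 1 ≤ ‖(v + s) / 2‖
  · refine ⟨(v + s) / 2, h, ?_⟩
    have : ((v + s) / 2)⁻¹ = (v - s) / 2 := inv_eq_of_mul_eq_one_right h0
    rw [this]
    ring
  · refine ⟨(v - s) / 2, ?_, ?_⟩
    · have h1 : ‖(v + s) / 2‖ * ‖(v - s) / 2‖ = 1 := by
        rw [← norm_mul, h0, norm_one]
      push Not at h
      by_contra h2
      push Not at h2
      have h3 : ‖(v + s) / 2‖ * ‖(v - s) / 2‖ < 1 := by
        calc ‖(v + s) / 2‖ * ‖(v - s) / 2‖ ≤ 1 * ‖(v - s) / 2‖ := by gcongr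
          _ < 1 := by rw [one_mul]; exact h2
      linarith
    · have : ((v - s) / 2)⁻¹ = (v + s) / 2 := inv_eq_of_mul_eq_one_left h0
      rw [this]
      ring

theorem p_CHX : Stmt_CHX := by
  intro R B z hR hB
  have ha : (0 : ℝ) < R * (1 + B) / 2 := by
    have : 0 < 1 + B := by linarith
    positivity
  have ha' : ((R * (1 + B) / 2 : ℝ) : ℂ) ≠ 0 := by exact_mod_cast ha.ne'
  obtain ⟨w, h1, h2⟩ := CHX_root
    ((z + ((R ^ 2 : ℝ) : ℂ) / z - ((R * (1 - B) : ℝ) : ℂ)) / ((R * (1 + B) / 2 : ℝ) : ℂ))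
  refine ⟨w, h1, ?_⟩
  rw [h2, mul_div_cancel₀ _ ha']

end Pool.Agent.Work.MP_ce2d68_np
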