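import Pool.Agent.Work.MP_ce2d68_st.Interface

set_option autoImplicit false

open Polynomial Filter Topology
open scoped ComplexConjugate

/-!
Size of the sector constants near 180 degrees (MP_ce2d68_nt, owner helper90).

`c = cth`, `C = exp lec` (essential constant), as in `MP_ce2d68_st.Interface`; `theta` in radians,
`delta = pi - theta`.  Target (block FIN):

(1) `M(alpha) >= lam^(-d/8) / (8 sqrt d)`, `lam = 1 - (3/4) cos(theta/2)^2`, for all `alpha` of degree `d`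
    in the sector;
(2) `lam^(-1/8) <= C(theta) <= 1/sin(theta/2)`;
(3) `k delta^2 / log(4/delta)^9 <= log c(theta)`;
(4) a stair `[a,b)` has `(pi-a)^2 <= K (pi-b)^2 log(4/(pi-b))^9`.

Notation of the Chebyshev polynomials: for real `R > 0`, `-1 < B <= 1`, `lam = R (1+B)/2`,
`u = z + R^2/z`, the polynomial `EE R B k` is `z^k` times `2 lam^k T_k(v)`, `v = (u - R(1-B))/(2 lam)`
(`T_k` = Chebyshev; `v` runs through `[-1,1]` for `u` in `[-2RB, 2R]`).  With the Joukowski variable `w`,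
`w + 1/w = 2 v`, `|w| >= 1`, one has `EE R B k (z) = (lam z)^k (w^k + w^(-k))`.
-/

namespace Pool.Agent.Work.MP_ce2d68_np

open Pool.Agent.Work.MP_ce2d68_st

/-- `z^k` times the Chebyshev polynomial of the interval `[-2RB, 2R]` at `z + R²/z` -/
noncomputable def EE (R B : ℝ) : ℕ → ℂ[X]
  | 0 => C 2
  | 1 => X ^ 2 - C ((R * (1 - B) : ℝ) : ℂ) * X + C ((R ^ 2 : ℝ) : ℂ)
  | k + 2 => (X ^ 2 - C ((R * (1 - B) : ℝ) : ℂ) * X + C ((R ^ 2 : ℝ) : ℂ)) * EE R B (k + 1)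
      - C (((R * (1 + B) / 2) ^ 2 : ℝ) : ℂ) * X ^ 2 * EE R B k

/-- `w` is the Joukowski variable of `z` -/
def Jk (R B : ℝ) (z w : ℂ) : Prop :=
  1 ≤ ‖w‖ ∧ ((R * (1 + B) / 2 : ℝ) : ℂ) * (w + w⁻¹)
    = z + ((R ^ 2 : ℝ) : ℂ) / z - ((R * (1 - B) : ℝ) : ℂ)

/-- `(|z|/R + R/|z|)/2` -/
noncomputable def hh (R : ℝ) (z : ℂ) : ℝ := (‖z‖ / R + R / ‖z‖) / 2

/-- cosine of the argument -/
noncomputable def cc (z : ℂ) : ℝ := z.re / ‖z‖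

/-- `1 - (3/4) cos(θ/2)²` -/
noncomputable def lam (θ : ℝ) : ℝ := 1 - 3 / 4 * Real.cos (θ / 2) ^ 2

/-- `CHP`: the polynomials `EE`.
Proof: two-step induction on `k >= 1` (`EE 2 = (X^2 - ..)^2 - 2 c X^2`; the correction term
`c X^2 EE k` has degree `<= 2k+2 < 2k+4`; for `k = 0` it is `2 c X^2`).  Use e.g. the auxiliary
statement: `EE (k+1)` is monic of degree `2k+2` for all `k`.  `RealP`: `Polynomial.map` and real coefficients.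
Value at `0`: `EE (k+1) (0) = (R^2)^(k+1)`. -/
def Stmt_CHP : Prop :=
  ∀ (R B : ℝ) (k : ℕ), 1 ≤ k →
    (EE R B k).Monic ∧ (EE R B k).natDegree = 2 * k ∧ RealP (EE R B k) ∧
    (EE R B k).eval 0 = (((R ^ 2) ^ k : ℝ) : ℂ)

/-- `CHX`: existence of `w`.
Proof: `w` a root of `w^2 - 2 v w + 1 = 0` (exists, `IsAlgClosed`, or `w = v + s` with `s^2 = v^2 - 1`);
`w ≠ 0`, and `w⁻¹` is the other root; take the one of modulus `>= 1`. -/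
def Stmt_CHX : Prop :=
  ∀ (R B : ℝ) (z : ℂ), 0 < R → -1 < B → ∃ w : ℂ, Jk R B z w

/-- `CHV`: value of `EE` in terms of `w`.
Proof: induction (two steps): with `q = lam z`, `z^2 - R(1-B) z + R^2 = z (u - R(1-B)) = q (w + 1/w)`,
`(w + 1/w)(w^(k+1) + w^(-k-1)) - (w^k + w^(-k)) = w^(k+2) + w^(-k-2)`. -/
def Stmt_CHV : Prop :=
  ∀ (R B : ℝ) (z w : ℂ), 0 < R → -1 < B → z ≠ 0 → Jk R B z w → ∀ k : ℕ,
    (EE R B k).eval z = (((R * (1 + B) / 2 : ℝ) : ℂ) * z) ^ k * (w ^ k + w⁻¹ ^ k)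

/-- `CHS`: the modulus of `w`.
Proof: `‖w‖ + ‖w‖⁻¹ = (‖w+1‖^2 + ‖w-1‖^2)/(2‖w‖)` (parallelogram law) and `‖w±1‖^2/‖w‖ = ‖w + w⁻¹ ± 2‖`.
By `Jk`: `lam (w + w⁻¹ - 2) = z + R^2/z - 2R = (z-R)^2/z`, `lam (w + w⁻¹ + 2) = (z^2 + 2RB z + R^2)/z`.
`‖(z-R)^2/z‖ = (‖z‖^2 - 2R z.re + R^2)/‖z‖ = 2R (h - c)`.
`‖z^2 + 2RBz + R^2‖^2 / ‖z‖^2 = 4 R^2 (h^2 + 2hcB + B^2 + c^2 - 1)`: polynomial identity in
`x = z.re`, `y = z.im`, `r = ‖z‖`, `r^2 = x^2 + y^2`, `h = (r^2+R^2)/(2rR)`, `c = x/r`. -/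
def Stmt_CHS : Prop :=
  ∀ (R B : ℝ) (z w : ℂ), 0 < R → -1 < B → z ≠ 0 → Jk R B z w →
    (1 + B) * (‖w‖ + ‖w‖⁻¹) = 2 * (hh R z - cc z)
      + 2 * √(hh R z ^ 2 + 2 * hh R z * cc z * B + B ^ 2 + cc z ^ 2 - 1)

/-- `UPW`: upper bound of `w` in the sector (`R = 1`).
Proof: `h = hh 1 z >= 1` (`t + 1/t >= 2`), `c = cc z`, `|c| <= 1`.  `e = h - 1`.  With `s = c + B >= (1-C)/4 > 0`:
`h^2 + 2hcB + B^2 + c^2 - 1 = s^2 + 2 e (1+cB) + e^2 <= (s + e (1+cB)/s)^2` since `1 + cB >= s`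
(`(1-c)(1-B) >= 0`).  So by `CHS` `(1+B)(‖w‖+‖w‖⁻¹) <= 2(1+e-c) + 2s + 2e(1+cB)/s`, i.e.
`‖w‖+‖w‖⁻¹ <= 2 + 2 e (1+c)/s` (as `s + 1 + cB = (1+c)(1+B)`), and `(1+c)/s <= 4` because `1 <= 3c + 4B` (`c >= -C`).
Finally `‖z‖^2 + ‖z‖⁻¹^2 = 4h^2 - 2 = 2 + 8e + 4e^2 >= 2 + 8e`, so `t + 1/t` at `t = ‖w‖ >= 1` is at most its value at
`max(‖z‖,‖z‖⁻¹)^2 >= 1`; `t + 1/t` is strictly increasing on `[1, ∞)`. -/
def Stmt_UPW : Prop :=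
  ∀ (C : ℝ) (z w : ℂ), -1 ≤ C → C < 1 → z ≠ 0 → -C ≤ cc z → Jk 1 ((1 + 3 * C) / 4) z w →
    ‖w‖ ≤ (max ‖z‖ ‖z‖⁻¹) ^ 2

/-- `LOW`: lower bound of `w` everywhere.
Proof: `sqrt(h^2 + 2hcB + B^2 + c^2 - 1) >= Bh + c` (square: `h^2(1-B^2) >= 1-B^2`), so by `CHS`
`‖w‖ + ‖w‖⁻¹ >= 2h = t + 1/t`, `t = max(‖z‖/R, R/‖z‖)`. -/
def Stmt_LOW : Prop :=
  ∀ (R B : ℝ) (z w : ℂ), 0 < R → -1 < B → B ≤ 1 → z ≠ 0 → Jk R B z w →
    ‖z‖ / R ≤ ‖w‖ ∧ R / ‖z‖ ≤ ‖w‖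

/-- `GAP`: lower bound of `w` outside the sector.
Proof: by `CHS`, the right side is increasing in `h >= 1` (`2h + 2cB >= 0`), so it is `>= 2(1-c) + 2|c+B|`, and `c < -C < -B`, so
`c + B < 0` and it is `>= 2 - 4c - 2B > 2 - 2B + 4C`.  Hence `‖w‖ + ‖w‖⁻¹ >= 2 + 4(C-B)/(1+B)`; let `w0 > 1` solve
`w0 + 1/w0 = 2 + 4(C-B)/(1+B)` (or any smaller number `> 1`). -/
def Stmt_GAP : Prop :=
  ∀ (B C : ℝ), -1 < B → B < C → C < 1 → ∃ w₀ : ℝ, 1 < w₀ ∧ ∀ (R : ℝ) (z w : ℂ), 0 < R → z ≠ 0 →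
    cc z < -C → Jk R B z w → w₀ ≤ ‖w‖

/-- `HAD`: Hadamard's inequality (copy `CMA.B3.hadamard` of `Work/MP_4eb3f9_an_helper15/B3.lean`). -/
def Stmt_HAD : Prop :=
  ∀ (d : ℕ) (A : Matrix (Fin d) (Fin d) ℂ), (∀ i j, ‖A i j‖ ≤ 1) → ‖A.det‖ ^ 2 ≤ (d : ℝ) ^ d

/-- `SUMK`: a sum (`k_j = min(j/3, d-1-j)`; for `d = 0` empty).
Proof: e.g. strong induction in steps of 4 or 12, or: `j <= J := 3(d-1)/4` gives `k_j >= (j-2)/3` (check), else `d-1-j`. -/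
def Stmt_SUMK : Prop :=
  ∀ d : ℕ, (d : ℝ) ^ 2 / 8 - d ≤ ∑ j ∈ Finset.range d, ((min (j / 3) (d - 1 - j) : ℕ) : ℝ)

/-- `VDM`: the lower bound for one polynomial (uses BAS, DSC of `MP_ce2d68_st`, CHP, CHX, CHV, UPW, HAD, SUMK).
Proof: `C = -cos θ` in `[-1,1)`, `B = (1+3C)/4`, `(1+B)/2 = 1 - (3/8)(1+cos θ) = lam θ =: L` in `[1/4, 1)`.
`d = natDegree P`, roots `z_0..z_(d-1)` (distinct, nonzero, `cc z_i = cos(arg z_i) >= cos θ = -C`).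
For `j < d` let `k = min(j/3, d-1-j)`, `p_j = X^(j-2k) EE 1 B k` for `k >= 1`, `p_j = X^j` for `k = 0`: monic of degree `j`.
For `z = z_i`: `‖EE 1 B k (z)‖ <= (L‖z‖)^k 2‖w‖^k <= 2 L^k ‖z‖^k max(‖z‖,1/‖z‖)^(2k)`, so
`‖p_j(z)‖ <= 2 L^k max(1,‖z‖)^(d-1)` (`‖z‖ >= 1`: exponent `j + k <= d-1`; `‖z‖ < 1`: exponent `(j-2k) + k - 2k = j - 3k >= 0`).
So `A i j = p_j(z_i) / (2 L^(k_j) max(1,‖z_i‖)^(d-1))` has entries `<= 1`; the determinant of `(p_j(z_i))` is that of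
Vandermonde (`Matrix.det_eval_matrixOfPolynomials_eq_det_vandermonde`), whose square has modulus
`prod_{a} prod_{b ≠ a} ‖a-b‖ >= 1` (DSC with `Ps = {P}`).  HAD:
`1 <= (2^d L^(sum k_j) M^(d-1))^2 d^d`, `M = MM P = prod max(1,‖z_i‖)`.  Logarithms:
`(d-1) log M >= (sum k) log(1/L) - d log 2 - (d/2) log d`, hence (`log M >= 0`) `d log M >=` the same right side, and
`sum k >= d^2/8 - d`, `log(1/L) <= log 4`: `log M >= (d/8) log(1/L) - log 4 - log 2 - (1/2) log d`. -/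
def Stmt_VDM : Prop :=
  ∀ (θ : ℝ) (P : ℤ[X]), 0 ≤ θ → θ < Real.pi → P.Monic → Irreducible P → P ≠ X →
    (∀ z ∈ rts P, |z.arg| ≤ θ) →
    P.natDegree / 8 * Real.log (1 / lam θ) - 1 / 2 * Real.log (64 * P.natDegree) ≤ Real.log (MM P)

/-- `LEM`: existence theorem for lemniscates (uses TOPP, MAXP, EIS, ACHV, BIG of `MP_ce2d68_st`).
Proof: `n = natDegree q`, `b` from BIG(θ), `K = {‖q‖ <= τ} ∪ closedBall b 10` (compact: `q` monic of degree >= 1),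
`K` is symmetric.  For `J >= 1` put `T z = max(‖q z‖,τ)^J * max(‖z-b‖,10)`, `p = q^J (X-b)`, `n1 = nJ+1`.
`‖p‖ <= T` everywhere, `= T` off `K`.  Let `C` bound `‖z‖^i` (`i < n`) on `K`.  For `N >= 1` apply the rounding to `p^N`, degree `D = N n1`,
with monic real `B_i` of degree `D - i`: for `1 <= i <= N`: `B_i = q^(JN) (X-b)^(N-i)`, so `‖B_i‖ <= 10^(-i) T^N` on `K`;
for `i > N`: `D - i = n j + i'`, `i' < n`, `j < JN`, `B_i = X^i' q^j`, `‖B_i‖ <= C τ^(-(JN-j)) 10^(-N) T^N` on `K`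
(`T^N >= max(‖q‖,τ)^j τ^(JN-j) 10^N`).  `sum 2‖B_i‖ <= (2/9 + 2nC/(τ-1) 10^(-N)) T^N <= (1/2) T^N` for `N` large.
TOPP with `m = D - 1`, `H = X`, gives `t_i` (`|t_i| <= 2`, `i <= D-1`) and `v` with
`p^N + sum t_i B_i - X^D - 2 - 4 X v` constant `= x`; take the integer `c` with `|x - 4c| <= 2`, `t_D = -(x-4c)`, `B_D = 1`:
`F = p^N + sum_{i<=D} t_i B_i = X^D + 2 + 4(X v + c)` (EIS: monic, irreducible, `|F(0)| >= 2`).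
`‖F - p^N‖ <= (1/2) T^N` on `K`, by MAXP `<= (1/2)‖p^N‖` off `K`; so all zeros of `F` are in `K` (in the sector) and
`‖F‖ <= (3/2) T^N`.  ACHV: `Ach θ (ca (log T)/n1)`, `ca log T = J ca(log max(‖q‖,τ)) + ca(log max(‖z-b‖,10)) <= J κ + log(2b)`
(continuous functions, circle average is additive).  `J -> ∞` (`Ach` is closed and monotone). -/
def Stmt_LEM : Prop :=
  ∀ (θ : ℝ) (q : ℂ[X]) (τ : ℝ), 0 < θ → θ < Real.pi → q.Monic → RealP q → 1 ≤ q.natDegree →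
    1 < τ → (∀ z : ℂ, ‖q.eval z‖ ≤ τ → |z.arg| ≤ θ) →
    Ach θ (ca (fun z => Real.log (max ‖q.eval z‖ τ)) / q.natDegree)

/-- `UPB`: upper bound (uses LEM, CHP, CHX, CHV, LOW, GAP).
Proof: `δ = π - θ`, `1/sin(θ/2) = 1/cos(δ/2)`.  Choose `β` in `(δ, π)` with `R cos(β/2) > 1` (possible, continuity);
`B = cos β < C := cos δ = -cos θ`, `C < 1`.  `L = R(1+B)/2`, `L R = R^2 cos(β/2)^2 =: c0 > 1`.  Let `w0` be from GAP(B,C), `w1 = min(w0,R) > 1`.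
`q = EE R B k`, `k` large.  If `z ≠ 0` and (`|z| = 1` or `|arg z| > θ`) then `‖w‖ >= w1` (LOW: `‖w‖ >= R/‖z‖ = R`; GAP with
`cc z = cos(arg z) < cos θ = -C`), and `L‖z‖‖w‖ >= L R = c0` (LOW); so
`‖q(z)‖ = (L‖z‖)^k ‖w^k + w⁻¹^k‖ >= (L‖z‖‖w‖)^k (1 - ‖w‖^(-2k)) >= c0^k (1 - w1^(-2k)) > 2` for `k` large.
So `‖q(z)‖ <= 2` implies `|arg z| <= θ` (`z = 0`: arg 0 = 0), and on the unit circle `max(‖q‖,2) = ‖q‖`.
`ca(log ‖q‖) = log mahlerMeasure q = sum over the roots of log⁺‖root‖ = 2k log R`: every root `a` is nonzero (CHP) and has `w^(2k) = -1`, so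
`‖w‖ = 1` and by LOW `‖a‖ = R > 1`. LEM with `τ = 2`. -/
def Stmt_UPB : Prop :=
  ∀ θ R : ℝ, 0 < θ → θ < Real.pi → 1 / Real.sin (θ / 2) < R → Ach θ (Real.log R)

/-- `DOB`: bridge to Dobrowolski's theorem (`Work/MP_4c4335_nt/Dob3.lean`, `dobrowolski_log`; compare the
definition `mm` there with `MM`; `Adm` polynomials are minimal polynomials of their roots, TRL). -/
def Stmt_DOB : Prop :=
  ∃ T₀ : ℕ, 2 ≤ T₀ ∧ ∀ T : ℕ, T₀ ≤ T → ∀ (θ : ℝ) (P : ℤ[X]), Adm θ P → P.natDegree ≤ T →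
    1 / Real.log T ^ 8 ≤ Real.log (MM P)

/-- `LOC`: lower bound for all degrees (uses VDM, DOB, BAS).
Proof: `κ := (1/8) log(1/lam θ) >= (3/32) cos(θ/2)^2 >= (3/(32 π^2)) δ^2` (`log(1/(1-x)) >= x`,
`cos(θ/2) = sin(δ/2) >= δ/π`).  VDM: `log M/d >= κ - log(64 d)/(2d)`.  If `d >= D1 := K log(4/δ)/δ^2` (`K` absolute) then
`log(64d)/(2d) <= κ/2` and `lv P >= κ/2`.  Otherwise DOB with `T = max(⌈D1⌉, T₀)`: `lv P >= 1/(T (log T)^8) >= k δ^2/log(4/δ)^9`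
(`log T <= K' log(4/δ)`, `log(4/δ) >= log(4/π) > 0`). -/
def Stmt_LOC : Prop :=
  ∃ k : ℝ, 0 < k ∧ ∀ (θ : ℝ) (P : ℤ[X]), 0 ≤ θ → θ < Real.pi → Adm θ P →
    k * (Real.pi - θ) ^ 2 / Real.log (4 / (Real.pi - θ)) ^ 9 ≤ lv P

/-- `ESL`: lower bound for the essential constant (uses VDM; `log(64 d)/d -> 0`). -/
def Stmt_ESL : Prop :=
  ∀ θ x : ℝ, 0 < θ → θ < Real.pi → Ach θ x → 1 / 8 * Real.log (1 / lam θ) ≤ x

/-- `STA`: stairs (uses LOC, UPB, TRL, LEP, FIN of `MP_ce2d68_st`).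
Proof: `b = π` is impossible: `c a > 1` (LOC: `log (c a) >= k (π-a)^2/..`) but `c θ <= 1/sin(θ/2) -> 1`.  For `θ` in `[a,b)`, `θ > 0`:
`k (π-a)^2/log(4/(π-a))^9 <= log (c a) = log (c θ) <= -log sin(θ/2)`; `θ -> b`: `<= -log sin(b/2) <= K (π-b)^2` if `b >= π/2`
(`-log cos x <= x^2` for `0 <= x <= π/4`); if `b < π/2` then `(π-a)^2 <= π^2 <= 4 (π-b)^2` and `log(4/(π-b)) >= log(4/π)`.
`log(4/(π-a)) <= log(4/(π-b))`. -/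
def Stmt_STA : Prop :=
  ∃ K : ℝ, 0 < K ∧ ∀ a b : ℝ, 0 ≤ a → a < b → b ≤ Real.pi →
    (∀ x ∈ Set.Ico a b, ∀ y ∈ Set.Ico a b, cth x = cth y) →
    b < Real.pi ∧ (Real.pi - a) ^ 2 ≤ K * (Real.pi - b) ^ 2 * Real.log (4 / (Real.pi - b)) ^ 9

end Pool.Agent.Work.MP_ce2d68_np
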