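import Mathlib
import Pool.Agent.Work.MP_ce2d68_np.Interface
import Pool.Agent.Work.MP_4c4335_nt.Dob3

/-! Block DOB: bridge to Dobrowolski's theorem. -/

set_option autoImplicit false

open Polynomial Filter Topology
open scoped ComplexConjugate

namespace Pool.Agent.Work.MP_ce2d68_np

open Pool.Agent.Work.MP_ce2d68_st

theorem p_DOB : Stmt_DOB := by
  obtain ⟨T₁, hT₁⟩ := Filter.eventually_atTop.1 Pool.Agent.Work.MP_4c4335_nt.dobrowolski_log
  refine ⟨max T₁ 3, by omega, ?_⟩
  intro T hT θ P hP hdeg
  obtain ⟨hmon, hirr, hX, -, hMM⟩ := hP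
  have hT1 : T₁ ≤ T := (le_max_left _ _).trans hT
  have hT3 : 3 ≤ T := (le_max_right _ _).trans hT
  have hnd : P.natDegree ≠ 0 := by
    intro h0
    have h1 := Polynomial.eq_one_of_monic_natDegree_zero hmon h0
    exact hirr.not_isUnit (h1 ▸ isUnit_one)
  have hcd : (cp P).natDegree = P.natDegree := hmon.natDegree_map _
  obtain ⟨α, hα⟩ := IsAlgClosed.exists_root (cp P) (by
    intro h
    apply hnd
    rw [← hcd]
    exact Polynomial.natDegree_eq_of_degree_eq_some h)
  have haev : aeval α P = 0 := by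
    have h1 : (cp P).eval α = 0 := hα
    rw [cp, Polynomial.eval_map] at h1
    rw [Polynomial.aeval_def]
    exact h1
  have hint : IsIntegral ℤ α := ⟨P, hmon, by rw [← Polynomial.aeval_def]; exact haev⟩
  have hdvd : minpoly ℤ α ∣ P := minpoly.isIntegrallyClosed_dvd hint haev
  have hass : Associated (minpoly ℤ α) P :=
    (minpoly.irreducible hint).associated_of_dvd hirr hdvd
  have hmin : minpoly ℤ α = P :=
    Polynomial.eq_of_monic_of_associated (minpoly.monic hint) hmon hass
  have hα0 : α ≠ 0 := by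
    intro h0
    apply hX
    rw [h0, Polynomial.aeval_def, Polynomial.eval₂_at_zero] at haev
    have hc : P.coeff 0 = 0 := by
      have h1 : ((P.coeff 0 : ℤ) : ℂ) = 0 := by simpa using haev
      exact_mod_cast h1
    have hd : X ∣ P := Polynomial.X_dvd_iff.2 hc
    exact Polynomial.eq_of_monic_of_associated hmon Polynomial.monic_X
      ((Polynomial.irreducible_X.associated_of_dvd hirr hd).symm)
  have hlogT : 0 < Real.log T := Real.log_pos (by exact_mod_cast (by omega : 1 < T))
  have hmm : Pool.Agent.Work.MP_4c4335_nt.mm (minpoly ℤ α) = MM P := by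
    rw [hmin]
    rfl
  by_contra hcon
  push Not at hcon
  have hle : Real.log T ^ 8 * Real.log (MM P) ≤ 1 := by
    have h1 : Real.log T ^ 8 * Real.log (MM P) ≤ Real.log T ^ 8 * (1 / Real.log T ^ 8) :=
      mul_le_mul_of_nonneg_left hcon.le (by positivity)
    have h2 : Real.log T ^ 8 * (1 / Real.log T ^ 8) = 1 := by
      field_simp
    linarith
  have h3 := hT₁ T hT1 α hint hα0 (by rw [hmin]; exact hdeg) (by rw [hmm]; exact hle)
  rw [hmm] at h3
  linarith

end Pool.Agent.Work.MP_ce2d68_np
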