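import Pool.Agent.Work.MP_ce2d68_np.Interface

/-! Block ESL: lower bound for the essential constant (typed by helper62). -/

set_option autoImplicit false

open Polynomial Filter Topology

namespace Pool.Agent.Work.MP_ce2d68_np

open Pool.Agent.Work.MP_ce2d68_st

theorem ESL_log {d : ℝ} (hd : 0 < d) : Real.log (64 * d) ≤ 16 * √d := by
  have h1 : 64 * d = (8 * √d) ^ 2 := by
    rw [mul_pow, Real.sq_sqrt hd.le]; norm_num
  have hs : 0 < √d := Real.sqrt_pos.2 hd
  rw [h1, Real.log_pow]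
  have h2 := Real.log_le_sub_one_of_pos (show (0 : ℝ) < 8 * √d by positivity)
  push_cast
  linarith

theorem ESL_deg {θ : ℝ} {P : ℤ[X]} (h : Adm θ P) : 1 ≤ P.natDegree := by
  obtain ⟨hm, hi, -⟩ := h
  rcases Nat.eq_zero_or_pos P.natDegree with h0 | h0
  · have := Polynomial.eq_one_of_monic_natDegree_zero hm h0
    rw [this] at hi
    exact absurd hi not_irreducible_one
  · exact h0

theorem ESL_lv (hVDM : Stmt_VDM) {θ : ℝ} (h0 : 0 ≤ θ) (h1 : θ < Real.pi) {P : ℤ[X]}
    (h : Adm θ P) :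
    1 / 8 * Real.log (1 / lam θ) - Real.log (64 * P.natDegree) / (2 * P.natDegree) ≤ lv P := by
  have hd : (0 : ℝ) < P.natDegree := by exact_mod_cast ESL_deg h
  have h2 := hVDM θ P h0 h1 h.1 h.2.1 h.2.2.1 h.2.2.2.1
  unfold lv
  rw [le_div_iff₀ hd]
  have h3 : (1 / 8 * Real.log (1 / lam θ) - Real.log (64 * P.natDegree) / (2 * P.natDegree)) *
      P.natDegree = P.natDegree / 8 * Real.log (1 / lam θ) -
        1 / 2 * Real.log (64 * P.natDegree) := by
    field_simp
  rw [h3]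
  exact h2

theorem p_ESL (hVDM : Stmt_VDM) : Stmt_ESL := by
  intro θ x h0 h1 hA
  refine le_of_forall_pos_le_add fun ε hε => ?_
  obtain ⟨D, hD⟩ := exists_nat_ge ((16 / ε) ^ 2)
  obtain ⟨F, hF, hFD, hFx⟩ := hA (ε / 2) (by positivity) D
  have hd1 : (1 : ℝ) ≤ F.natDegree := by exact_mod_cast ESL_deg hF
  have hd : (0 : ℝ) < F.natDegree := by linarith
  have h2 := ESL_lv hVDM h0.le h1 hF
  have h3 := ESL_log hd
  have hs : 0 < √(F.natDegree : ℝ) := Real.sqrt_pos.2 hd
  have hsq : √(F.natDegree : ℝ) * √(F.natDegree : ℝ) = F.natDegree := Real.mul_self_sqrt hd.le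
  have h4 : 16 / ε ≤ √(F.natDegree : ℝ) := by
    apply Real.le_sqrt_of_sq_le
    have : (D : ℝ) ≤ F.natDegree := by exact_mod_cast hFD
    linarith
  have h5 : Real.log (64 * F.natDegree) / (2 * F.natDegree) ≤ ε / 2 := by
    rw [div_le_iff₀ (by positivity)]
    have h6 : 16 ≤ √(F.natDegree : ℝ) * ε := by
      rwa [div_le_iff₀ hε] at h4
    calc Real.log (64 * F.natDegree) ≤ 16 * √(F.natDegree : ℝ) := h3
      _ ≤ (√(F.natDegree : ℝ) * ε) * √(F.natDegree : ℝ) :=
          mul_le_mul_of_nonneg_right h6 hs.le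
      _ = ε / 2 * (2 * F.natDegree) := by
          rw [mul_right_comm, hsq]; ring
  linarith

end Pool.Agent.Work.MP_ce2d68_np
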