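import Pool.Agent.Work.MP_ce2d68_np.Interface

set_option autoImplicit false

/-! Block `GAP` of `MP_ce2d68_np` (typed by helper87). -/

namespace Pool.Agent.Work.MP_ce2d68_np

theorem GAP_mono (w t : ℝ) (hw : 1 ≤ w) (ht : 0 < t) (h : t + t⁻¹ ≤ w + w⁻¹) : t ≤ w := by
  by_contra hlt
  have hlt : w < t := not_le.1 hlt
  have hw0 : 0 < w := by linarith
  have h1 : 1 < t * w := by nlinarith
  have h2 : t + t⁻¹ - (w + w⁻¹) = (t - w) * (t * w - 1) / (t * w) := by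
    field_simp
    ring
  have h3 : 0 < (t - w) * (t * w - 1) / (t * w) :=
    div_pos (mul_pos (by linarith) (by linarith)) (by linarith)
  linarith

theorem GAP_hh (R : ℝ) (z : ℂ) (hR : 0 < R) (hz : z ≠ 0) : 1 ≤ hh R z := by
  have hn : 0 < ‖z‖ := norm_pos_iff.2 hz
  unfold hh
  have h2 : (‖z‖ / R + R / ‖z‖) / 2 - 1 = (‖z‖ - R) ^ 2 / (2 * (R * ‖z‖)) := by
    field_simp
    ring
  have h3 : 0 ≤ (‖z‖ - R) ^ 2 / (2 * (R * ‖z‖)) := by positivity
  linarith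

theorem GAP_cc (z : ℂ) (hz : z ≠ 0) : cc z ≤ 1 := by
  have hn : 0 < ‖z‖ := norm_pos_iff.2 hz
  unfold cc
  rw [div_le_one hn]
  exact Complex.re_le_norm z

theorem p_GAP (hS : Stmt_CHS) : Stmt_GAP := by
  intro B C hB hBC hC
  have hB0 : 0 < 1 + B := by linarith
  set η : ℝ := 4 * (C - B) / (1 + B) with hη
  have hη0 : 0 < η := by
    rw [hη]
    exact div_pos (by linarith) hB0
  have hηB : (1 + B) * η = 4 * (C - B) := by
    rw [hη]
    field_simp
  set x : ℝ := min 1 η with hx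
  have hx0 : 0 < x := lt_min one_pos hη0
  have hx1 : x ≤ 1 := min_le_left _ _
  have hxη : x ≤ η := min_le_right _ _
  refine ⟨1 + x, by linarith, ?_⟩
  intro R z w hR hz hcc hJ
  have h1 := hS R B z w hR hB hz hJ
  have hh1 := GAP_hh R z hR hz
  have hc1 := GAP_cc z hz
  set h := hh R z with hdef
  set c := cc z with hc
  have hsq : (-(c + B) - (h - 1)) ^ 2 ≤ h ^ 2 + 2 * h * c * B + B ^ 2 + c ^ 2 - 1 := by
    have e1 : h ^ 2 + 2 * h * c * B + B ^ 2 + c ^ 2 - 1 - (-(c + B) - (h - 1)) ^ 2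
        = 2 * ((h - 1) * ((1 - c) * (1 - B))) := by ring
    have e2 : 0 ≤ (h - 1) * ((1 - c) * (1 - B)) :=
      mul_nonneg (by linarith) (mul_nonneg (by linarith) (by linarith))
    linarith
  have hs : -(c + B) - (h - 1) ≤ √(h ^ 2 + 2 * h * c * B + B ^ 2 + c ^ 2 - 1) :=
    le_trans (le_abs_self _) (Real.abs_le_sqrt hsq)
  have h2 : 2 + η ≤ ‖w‖ + ‖w‖⁻¹ := by
    have h3 : (1 + B) * (2 + η) ≤ (1 + B) * (‖w‖ + ‖w‖⁻¹) := by
      rw [h1, mul_add, hηB]
      linarith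
    exact le_of_mul_le_mul_left h3 hB0
  have hw1 : 1 ≤ ‖w‖ := hJ.1
  apply GAP_mono _ _ hw1 (by linarith)
  have h5 : 1 + x + (1 + x)⁻¹ ≤ 2 + x := by
    have h6 : 2 + x - (1 + x + (1 + x)⁻¹) = x / (1 + x) := by
      have : 1 + x ≠ 0 := by linarith
      field_simp
      ring
    have h7 : 0 ≤ x / (1 + x) := div_nonneg hx0.le (by linarith)
    linarith
  linarith

end Pool.Agent.Work.MP_ce2d68_np
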