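import Pool.Agent.Work.MP_ce2d68_np.Interface

/-! # Block HAD: the inequality of Hadamard (helper63; copied from MP_4eb3f9_an_helper15/B3) -/

set_option autoImplicit false

open Complex MeasureTheory Filter Topology
open scoped ContDiff ComplexOrder Matrix

namespace Pool.Agent.Work.MP_ce2d68_np

/-- Hadamard for a psd matrix with unit diagonal. -/
theorem HAD_det_le_one_of_diag {N : ℕ} (G : Matrix (Fin N) (Fin N) ℂ) (hG : G.PosSemidef)
    (hd : ∀ i, G i i = 1) : G.det.re ≤ 1 := by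
  have h1 : G.det = ((∏ i, hG.1.eigenvalues i : ℝ) : ℂ) := by
    rw [hG.1.det_eq_prod_eigenvalues]; push_cast; rfl
  have h2 : ((∑ i, hG.1.eigenvalues i : ℝ) : ℂ) = (N : ℂ) := by
    have := hG.1.trace_eq_sum_eigenvalues
    rw [Matrix.trace] at this
    simp only [Matrix.diag_apply, hd, Finset.sum_const, Finset.card_univ, Fintype.card_fin,
      nsmul_eq_mul, mul_one] at this
    rw [this]; push_cast; rfl
  have h3 : ∑ i, hG.1.eigenvalues i = (N : ℝ) := by exact_mod_cast h2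
  rw [h1, Complex.ofReal_re]
  calc ∏ i, hG.1.eigenvalues i ≤ ∏ i, Real.exp (hG.1.eigenvalues i - 1) := by
        refine Finset.prod_le_prod (fun i _ => hG.eigenvalues_nonneg i) (fun i _ => ?_)
        have := Real.add_one_le_exp (hG.1.eigenvalues i - 1)
        linarith
    _ = Real.exp (∑ i, (hG.1.eigenvalues i - 1)) := (Real.exp_sum _ _).symm
    _ = 1 := by
        rw [Finset.sum_sub_distrib, h3]; simp

theorem HAD_hadamard {N : ℕ} (A : Matrix (Fin N) (Fin N) ℂ) :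
    ‖A.det‖ ^ 2 ≤ ∏ i, ∑ j, ‖A i j‖ ^ 2 := by
  by_cases h0 : ∃ i, ∑ j, ‖A i j‖ ^ 2 = 0
  · obtain ⟨i, hi⟩ := h0
    have hrow : ∀ j, A i j = 0 := by
      intro j
      have := (Finset.sum_eq_zero_iff_of_nonneg (fun j _ => by positivity)).1 hi j (Finset.mem_univ j)
      simpa using this
    rw [Matrix.det_eq_zero_of_row_eq_zero i hrow, Finset.prod_eq_zero (Finset.mem_univ i) hi]
    simp
  · push Not at h0
    have hpos : ∀ i, 0 < ∑ j, ‖A i j‖ ^ 2 := fun i =>
      lt_of_le_of_ne (Finset.sum_nonneg (fun j _ => by positivity)) (Ne.symm (h0 i))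
    set s : Fin N → ℝ := fun i => Real.sqrt (∑ j, ‖A i j‖ ^ 2) with hs
    have hspos : ∀ i, 0 < s i := fun i => Real.sqrt_pos.2 (hpos i)
    set D : Matrix (Fin N) (Fin N) ℂ := Matrix.diagonal (fun i => ((s i)⁻¹ : ℂ)) with hD
    set B := D * A with hB
    have hBij : ∀ i j, B i j = ((s i)⁻¹ : ℂ) * A i j := by
      intro i j; rw [hB, hD, Matrix.diagonal_mul]
    have hG : (B * Bᴴ).PosSemidef := Matrix.posSemidef_self_mul_conjTranspose B
    have hdiag : ∀ i, (B * Bᴴ) i i = 1 := by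
      intro i
      rw [Matrix.mul_apply]
      have : ∀ j, B i j * Bᴴ j i = (((s i)⁻¹ ^ 2 * ‖A i j‖ ^ 2 : ℝ) : ℂ) := by
        intro j
        rw [Matrix.conjTranspose_apply, hBij]
        have h1 : (((s i)⁻¹ : ℂ) * A i j) * star (((s i)⁻¹ : ℂ) * A i j)
            = ((‖((s i)⁻¹ : ℂ) * A i j‖ ^ 2 : ℝ) : ℂ) := by
          rw [Complex.star_def, Complex.mul_conj, Complex.normSq_eq_norm_sq]
        rw [h1, norm_mul, mul_pow, norm_inv, Complex.norm_real, Real.norm_eq_abs, abs_of_pos (hspos i)]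
      rw [Finset.sum_congr rfl (fun j _ => this j), ← Complex.ofReal_sum, ← Finset.mul_sum]
      have h2 : (s i) ^ 2 = ∑ j, ‖A i j‖ ^ 2 := Real.sq_sqrt (hpos i).le
      rw [← h2, inv_pow, inv_mul_cancel₀ (by have := hspos i; positivity)]
      simp
    have h1 := HAD_det_le_one_of_diag _ hG hdiag
    have h2 : (B * Bᴴ).det.re = ‖B.det‖ ^ 2 := by
      rw [Matrix.det_mul, Matrix.det_conjTranspose, Complex.star_def, Complex.mul_conj,
        Complex.normSq_eq_norm_sq, Complex.ofReal_re]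
    have h3 : ‖B.det‖ ^ 2 = (∏ i, (∑ j, ‖A i j‖ ^ 2))⁻¹ * ‖A.det‖ ^ 2 := by
      rw [hB, Matrix.det_mul, hD, Matrix.det_diagonal, norm_mul, mul_pow]
      congr 1
      rw [norm_prod, ← Finset.prod_pow, ← Finset.prod_inv_distrib]
      refine Finset.prod_congr rfl (fun i _ => ?_)
      rw [norm_inv, Complex.norm_real, Real.norm_eq_abs, abs_of_pos (hspos i), inv_pow,
        Real.sq_sqrt (hpos i).le]
    rw [h2, h3] at h1
    have hP : 0 < ∏ i, (∑ j, ‖A i j‖ ^ 2) := Finset.prod_pos (fun i _ => hpos i)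
    rw [inv_mul_le_iff₀ hP] at h1
    linarith

theorem p_HAD : Stmt_HAD := by
  intro d A hA
  refine (HAD_hadamard A).trans ?_
  have h1 : ∀ i : Fin d, ∑ j, ‖A i j‖ ^ 2 ≤ (d : ℝ) := by
    intro i
    calc ∑ j, ‖A i j‖ ^ 2 ≤ ∑ _j : Fin d, (1 : ℝ) :=
          Finset.sum_le_sum fun j _ => pow_le_one₀ (norm_nonneg _) (hA i j)
      _ = (d : ℝ) := by simp
  calc ∏ i, ∑ j, ‖A i j‖ ^ 2 ≤ ∏ _i : Fin d, (d : ℝ) :=
        Finset.prod_le_prod (fun i _ => Finset.sum_nonneg fun j _ => by positivity)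
          fun i _ => h1 i
    _ = (d : ℝ) ^ d := by simp

end Pool.Agent.Work.MP_ce2d68_np
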