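import Mathlib
import Pool.Agent.Work.MP_ce2d68_np.Interface

set_option autoImplicit false

open Polynomial Filter Topology
open scoped ComplexConjugate

namespace Pool.Agent.Work.MP_ce2d68_np

open Pool.Agent.Work.MP_ce2d68_st

theorem LEM_exists_real (p : ℂ[X]) (hp : RealP p) :
    ∃ q : ℝ[X], q.map (algebraMap ℝ ℂ) = p ∧ q.natDegree = p.natDegree ∧ (p.Monic → q.Monic) := by
  have h1 : p ∈ Polynomial.lifts (algebraMap ℝ ℂ) := by
    rw [Polynomial.lifts_iff_coeff_lifts]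
    intro n
    have h2 : (p.map (starRingEnd ℂ)).coeff n = p.coeff n := by rw [hp]
    rw [Polynomial.coeff_map] at h2
    obtain ⟨x, hx⟩ := Complex.conj_eq_iff_real.mp h2
    exact ⟨x, by rw [hx]; rfl⟩
  obtain ⟨q, hq⟩ := (Polynomial.mem_lifts p).mp h1
  refine ⟨q, hq, ?_, ?_⟩
  · rw [← hq, Polynomial.natDegree_map]
  · intro hm
    rw [← hq] at hm
    exact (Function.Injective.monic_map_iff (algebraMap ℝ ℂ).injective).mpr hm

theorem LEM_geo (m : ℕ) : ∑ i ∈ Finset.Icc 1 m, (1 / 10 : ℝ) ^ i ≤ 1 / 9 := by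
  have h : ∑ i ∈ Finset.Icc 1 m, (1 / 10 : ℝ) ^ i = 1 / 9 * (1 - (1 / 10 : ℝ) ^ m) := by
    induction m with
    | zero => simp
    | succ n ih =>
      rw [Finset.sum_Icc_succ_top (by omega), ih]
      ring
  rw [h]
  have : (0 : ℝ) < (1 / 10 : ℝ) ^ m := by positivity
  nlinarith

/-- for large `N` the error terms are small -/
theorem LEM_large (c : ℝ) (a : ℕ) (N₀ : ℕ) :
    ∃ N : ℕ, N₀ ≤ N ∧ 1 ≤ N ∧
      (2 * c * ((N * a : ℕ) : ℝ) + 2) * (1 / 10 : ℝ) ^ N ≤ 1 / 4 := by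
  have h1 : Tendsto (fun N : ℕ => (N : ℝ) * (1 / 10 : ℝ) ^ N) atTop (𝓝 0) := by
    have := tendsto_pow_const_mul_const_pow_of_lt_one 1 (r := (1 / 10 : ℝ)) (by norm_num)
      (by norm_num)
    simpa using this
  have h0 : Tendsto (fun N : ℕ => (1 / 10 : ℝ) ^ N) atTop (𝓝 0) :=
    tendsto_pow_atTop_nhds_zero_of_lt_one (by norm_num) (by norm_num)
  have h2 : Tendsto (fun N : ℕ => (2 * c * ((N * a : ℕ) : ℝ) + 2) * (1 / 10 : ℝ) ^ N)
      atTop (𝓝 0) := by
    have h3 : (fun N : ℕ => (2 * c * ((N * a : ℕ) : ℝ) + 2) * (1 / 10 : ℝ) ^ N)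
        = fun N : ℕ => (2 * c * a) * ((N : ℝ) * (1 / 10 : ℝ) ^ N) + 2 * (1 / 10 : ℝ) ^ N := by
      funext N
      push_cast
      ring
    rw [h3]
    simpa using (h1.const_mul (2 * c * a)).add (h0.const_mul 2)
  have h3 : ∀ᶠ N : ℕ in atTop, (2 * c * ((N * a : ℕ) : ℝ) + 2) * (1 / 10 : ℝ) ^ N ≤ 1 / 4 :=
    (h2.eventually (gt_mem_nhds (by norm_num : (0 : ℝ) < 1 / 4))).mono fun N hN => hN.le
  obtain ⟨N, hN⟩ := (h3.and ((eventually_ge_atTop N₀).and (eventually_ge_atTop 1))).exists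
  exact ⟨N, hN.2.1, hN.2.2, hN.1⟩

/-- lemniscates are compact -/
theorem LEM_compact (q : ℂ[X]) (hd : 1 ≤ q.natDegree) (τ : ℝ) :
    IsCompact {z : ℂ | ‖q.eval z‖ ≤ τ} := by
  have hdeg : 0 < q.degree := Polynomial.natDegree_pos_iff_degree_pos.mp (by omega)
  have h1 : Tendsto (fun z : ℂ => ‖q.eval z‖) (cocompact ℂ) atTop :=
    q.tendsto_norm_atTop hdeg (tendsto_norm_cocompact_atTop)
  have h2 : ∀ᶠ z in cocompact ℂ, τ < ‖q.eval z‖ := h1.eventually_gt_atTop τ
  obtain ⟨S, hS, hS2⟩ := Filter.mem_cocompact.mp h2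
  refine IsCompact.of_isClosed_subset hS ?_ ?_
  · exact isClosed_le (by fun_prop) continuous_const
  · intro z hz
    by_contra hzS
    have h3 := hS2 hzS
    simp only [Set.mem_setOf_eq] at hz h3
    linarith

/-- the rounding for one lemniscate and one large disc -/
theorem LEM_main (hTOPP : Stmt_TOPP) (hMAXP : Stmt_MAXP) (hEIS : Stmt_EIS)
    (θ b τ : ℝ) (qR : ℝ[X]) (q : ℂ[X]) (hq : qR.map (algebraMap ℝ ℂ) = q) (hqm : qR.Monic)
    (hqd : 1 ≤ qR.natDegree) (hτ : 1 < τ) (J : ℕ) (hJ : 1 ≤ J)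
    (hsec : ∀ z : ℂ, ‖q.eval z‖ ≤ τ → |z.arg| ≤ θ)
    (hb : ∀ z : ℂ, ‖z - b‖ ≤ 10 → |z.arg| ≤ θ) (N₀ : ℕ) :
    ∃ N : ℕ, N₀ ≤ N ∧ ∃ F : ℤ[X], F.Monic ∧ F.natDegree = N * (qR.natDegree * J + 1) ∧
      Irreducible F ∧ 2 ≤ |F.coeff 0| ∧ (∀ z, ev F z = 0 → |z.arg| ≤ θ) ∧
      ∀ z, ‖ev F z‖ ≤ 3 / 2 * ((max ‖q.eval z‖ τ) ^ J * max ‖z - b‖ 10) ^ N := by
  set n := qR.natDegree with hn
  have hqdeg : q.natDegree = n := by rw [← hq, hqm.natDegree_map]
  have hqmC : q.Monic := by rw [← hq]; exact hqm.map _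
  set K : Set ℂ := {z : ℂ | ‖q.eval z‖ ≤ τ} ∪ Metric.closedBall (b : ℂ) 10 with hK
  have hKc : IsCompact K :=
    (LEM_compact q (by rw [hqdeg]; exact hqd) τ).union (isCompact_closedBall _ _)
  have hKsec : ∀ z ∈ K, |z.arg| ≤ θ := by
    intro z hz
    rcases hz with hz | hz
    · exact hsec z hz
    · exact hb z (by simpa [dist_eq_norm] using hz)
  set Q : ℂ → ℝ := fun z => max ‖q.eval z‖ τ with hQ
  set β : ℂ → ℝ := fun z => max ‖z - b‖ 10 with hβ
  have hQ1 : ∀ z, 1 ≤ Q z := fun z => hτ.le.trans (le_max_right _ _)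
  have hβ10 : ∀ z, 10 ≤ β z := fun z => le_max_right _ _
  have hQpos : ∀ z, 0 < Q z := fun z => lt_of_lt_of_le one_pos (hQ1 z)
  have hβpos : ∀ z, 0 < β z := fun z => lt_of_lt_of_le (by norm_num) (hβ10 z)
  set T : ℂ → ℝ := fun z => Q z ^ J * β z with hT
  have hTpos : ∀ z, 0 < T z := fun z => by
    have := hQpos z
    have := hβpos z
    simp only [hT]; positivity
  have hTcont : Continuous T := by
    simp only [hT, hQ, hβ]
    fun_prop
  -- bound of the monomials
  obtain ⟨c, hc0, hc⟩ : ∃ c : ℝ, 0 < c ∧ ∀ z ∈ K, ∀ i < n, ‖z‖ ^ i ≤ c := by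
    obtain ⟨R, hR⟩ := hKc.isBounded.exists_norm_le
    refine ⟨(max R 1) ^ n, by positivity, ?_⟩
    intro z hz i hi
    calc ‖z‖ ^ i ≤ (max R 1) ^ i :=
          pow_le_pow_left₀ (norm_nonneg _) ((hR z hz).trans (le_max_left _ _)) _
      _ ≤ (max R 1) ^ n := pow_le_pow_right₀ (le_max_right _ _) hi.le
  set n₁ := n * J + 1 with hn1
  obtain ⟨N, hN0, hN1, hNs⟩ := LEM_large c n₁ N₀
  refine ⟨N, hN0, ?_⟩
  set D := N * n₁ with hD
  have hDexp : D = n * (J * N) + N := by rw [hD, hn1]; ring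
  have hD1 : 1 ≤ D := by omega
  set pR : ℝ[X] := qR ^ J * (X - C b) with hpR
  have hpRm : pR.Monic := (hqm.pow J).mul (monic_X_sub_C b)
  have hpRd : pR.natDegree = n₁ := by
    rw [hpR, (hqm.pow J).natDegree_mul (monic_X_sub_C b), hqm.natDegree_pow, natDegree_X_sub_C,
      hn1]
    ring
  set p : ℂ[X] := q ^ J * (X - C (b : ℂ)) with hp
  have hpmap : pR.map (algebraMap ℝ ℂ) = p := by
    rw [hpR, Polynomial.map_mul, Polynomial.map_pow, hq, Polynomial.map_sub, Polynomial.map_X,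
      Polynomial.map_C, hp]
    rfl
  have hpm : p.Monic := by rw [← hpmap]; exact hpRm.map _
  have hpd : p.natDegree = n₁ := by rw [← hpmap, hpRm.natDegree_map, hpRd]
  have hpev : ∀ z, ‖p.eval z‖ = ‖q.eval z‖ ^ J * ‖z - b‖ := by
    intro z
    rw [hp, eval_mul, eval_pow, eval_sub, eval_X, eval_C, norm_mul, norm_pow]
  have hpK : ∀ z, ‖p.eval z‖ ≤ T z := by
    intro z
    rw [hpev z]
    exact mul_le_mul (pow_le_pow_left₀ (norm_nonneg _) (le_max_left _ _) _) (le_max_left _ _)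
      (norm_nonneg _) (pow_nonneg (hQpos z).le _)
  have hpoff : ∀ z, z ∉ K → ‖p.eval z‖ = T z := by
    intro z hz
    rw [hpev z]
    simp only [hK, Set.mem_union, Set.mem_setOf_eq, Metric.mem_closedBall, dist_eq_norm,
      not_or, not_le] at hz
    simp only [hT, hQ, hβ]
    rw [max_eq_left hz.1.le, max_eq_left hz.2.le]
  -- the polynomials B
  set B : ℕ → ℝ[X] := fun i => if i ≤ N then qR ^ (J * N) * (X - C b) ^ (N - i)
    else X ^ ((D - i) % n) * qR ^ ((D - i) / n) with hB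
  have hBprop : ∀ i ∈ Finset.Icc 1 (D - 1), (B i).Monic ∧ (B i).natDegree = D - i := by
    intro i hi
    rw [Finset.mem_Icc] at hi
    by_cases hiN : i ≤ N
    · simp only [hB, hiN, if_true]
      have h1 : (qR ^ (J * N)).Monic := hqm.pow _
      have h2 : ((X - C b : ℝ[X]) ^ (N - i)).Monic := (monic_X_sub_C b).pow _
      refine ⟨h1.mul h2, ?_⟩
      rw [h1.natDegree_mul h2, hqm.natDegree_pow, (monic_X_sub_C b).natDegree_pow,
        natDegree_X_sub_C, hDexp, mul_one]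
      have h3 : J * N * qR.natDegree = n * (J * N) := by rw [← hn]; ring
      rw [h3]
      omega
    · simp only [hB, hiN, if_false]
      have h1 : ((X : ℝ[X]) ^ ((D - i) % n)).Monic := monic_X.pow _
      have h2 : (qR ^ ((D - i) / n)).Monic := hqm.pow _
      refine ⟨h1.mul h2, ?_⟩
      rw [h1.natDegree_mul h2, hqm.natDegree_pow, natDegree_X_pow, ← hn]
      have h3 : (D - i) / n * n + (D - i) % n = D - i := Nat.div_add_mod' _ _
      omega
  have hBb : ∀ i ∈ Finset.Icc 1 (D - 1), ∀ z ∈ K,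
      ‖rv (B i) z‖ ≤ ((1 / 10 : ℝ) ^ i + c * (1 / 10 : ℝ) ^ N) * T z ^ N := by
    intro i hi z hz
    rw [Finset.mem_Icc] at hi
    have hTN : T z ^ N = Q z ^ (J * N) * β z ^ N := by
      simp only [hT]; rw [mul_pow, ← pow_mul]
    have hq0 := hQpos z
    have hb0 := hβpos z
    by_cases hiN : i ≤ N
    · have h1 : ‖rv (B i) z‖ = ‖q.eval z‖ ^ (J * N) * ‖z - b‖ ^ (N - i) := by
        simp only [hB, hiN, if_true, rv]
        rw [Polynomial.map_mul, Polynomial.map_pow, Polynomial.map_pow, hq, Polynomial.map_sub,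
          Polynomial.map_X, Polynomial.map_C, eval_mul, eval_pow, eval_pow, eval_sub, eval_X,
          eval_C, norm_mul, norm_pow, norm_pow]
        rfl
      rw [h1]
      have h2 : ‖q.eval z‖ ^ (J * N) ≤ Q z ^ (J * N) :=
        pow_le_pow_left₀ (norm_nonneg _) (le_max_left _ _) _
      have h3 : ‖z - b‖ ^ (N - i) ≤ (1 / 10 : ℝ) ^ i * β z ^ N := by
        have h4 : ‖z - b‖ ^ (N - i) ≤ β z ^ (N - i) :=
          pow_le_pow_left₀ (norm_nonneg _) (le_max_left _ _) _
        have h5 : β z ^ N = β z ^ (N - i) * β z ^ i := by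
          rw [← pow_add]; congr 1; omega
        have h6 : (1 : ℝ) ≤ (1 / 10 : ℝ) ^ i * β z ^ i := by
          rw [← mul_pow]
          apply one_le_pow₀
          have := hβ10 z
          linarith
        calc ‖z - b‖ ^ (N - i) ≤ β z ^ (N - i) := h4
          _ = β z ^ (N - i) * 1 := by ring
          _ ≤ β z ^ (N - i) * ((1 / 10 : ℝ) ^ i * β z ^ i) :=
              mul_le_mul_of_nonneg_left h6 (by positivity)
          _ = (1 / 10 : ℝ) ^ i * β z ^ N := by rw [h5]; ring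
      calc ‖q.eval z‖ ^ (J * N) * ‖z - b‖ ^ (N - i)
          ≤ Q z ^ (J * N) * ((1 / 10 : ℝ) ^ i * β z ^ N) :=
            mul_le_mul h2 h3 (by positivity) (by positivity)
        _ = (1 / 10 : ℝ) ^ i * T z ^ N := by rw [hTN]; ring
        _ ≤ _ := by
          apply mul_le_mul_of_nonneg_right _ (pow_pos (hTpos z) N).le
          have : 0 ≤ c * (1 / 10 : ℝ) ^ N := by positivity
          linarith
    · have h1 : ‖rv (B i) z‖ = ‖z‖ ^ ((D - i) % n) * ‖q.eval z‖ ^ ((D - i) / n) := by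
        simp only [hB, hiN, if_false, rv]
        rw [Polynomial.map_mul, Polynomial.map_pow, Polynomial.map_pow, hq,
          Polynomial.map_X, eval_mul, eval_pow, eval_pow, eval_X, norm_mul, norm_pow, norm_pow]
      rw [h1]
      have hj : (D - i) / n ≤ J * N := by
        have : D - i ≤ n * (J * N) := by omega
        calc (D - i) / n ≤ (n * (J * N)) / n := Nat.div_le_div_right this
          _ = J * N := Nat.mul_div_cancel_left _ (by omega)
      have h2 : ‖q.eval z‖ ^ ((D - i) / n) ≤ Q z ^ (J * N) :=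
        (pow_le_pow_left₀ (norm_nonneg _) (le_max_left _ _) _).trans
          (pow_le_pow_right₀ (hQ1 z) hj)
      have h3 : ‖z‖ ^ ((D - i) % n) ≤ c := hc z hz _ (Nat.mod_lt _ (by omega))
      have h4 : (1 : ℝ) ≤ (1 / 10 : ℝ) ^ N * β z ^ N := by
        rw [← mul_pow]
        apply one_le_pow₀
        have := hβ10 z
        linarith
      calc ‖z‖ ^ ((D - i) % n) * ‖q.eval z‖ ^ ((D - i) / n)
          ≤ c * Q z ^ (J * N) := mul_le_mul h3 h2 (by positivity) hc0.le
        _ = c * Q z ^ (J * N) * 1 := by ring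
        _ ≤ c * Q z ^ (J * N) * ((1 / 10 : ℝ) ^ N * β z ^ N) :=
            mul_le_mul_of_nonneg_left h4 (by positivity)
        _ = c * (1 / 10 : ℝ) ^ N * T z ^ N := by rw [hTN]; ring
        _ ≤ _ := by
          apply mul_le_mul_of_nonneg_right _ (pow_pos (hTpos z) N).le
          have : 0 ≤ (1 / 10 : ℝ) ^ i := by positivity
          linarith
  -- the digits
  obtain ⟨t, v, ht, hvd, hdeg⟩ := hTOPP D (D - 1) X (pR ^ N) B (by omega) monic_X
    (by rw [natDegree_X]; omega) (hpRm.pow N) (by rw [hpRm.natDegree_pow, hpRd]) hBprop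
  set f : ℝ[X] := pR ^ N + ∑ i ∈ Finset.Icc 1 (D - 1), C (t i) * B i - X ^ D - 2
        - 4 * (X * v).map (Int.castRingHom ℝ) with hf
  obtain ⟨x, hx⟩ : ∃ x : ℝ, f = C x := by
    have h1 : f.degree < ((1 : ℕ) : WithBot ℕ) := by
      have : D - (D - 1) = 1 := by omega
      rw [this] at hdeg
      exact hdeg
    have h2 : f.natDegree = 0 := by
      by_cases hf0 : f = 0
      · rw [hf0, natDegree_zero]
      · have := (Polynomial.natDegree_lt_iff_degree_lt hf0).mpr h1
        omega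
    exact ⟨f.coeff 0, Polynomial.eq_C_of_natDegree_eq_zero h2⟩
  set k : ℤ := round (x / 4) with hk
  have hk2 : |x - 4 * k| ≤ 2 := by
    have := abs_sub_round (x / 4)
    rw [← hk] at this
    have h1 : x - 4 * k = 4 * (x / 4 - k) := by ring
    rw [h1, abs_mul, abs_of_pos (by norm_num : (0 : ℝ) < 4)]
    linarith
  have hG : (X * v + C k).degree < (D : WithBot ℕ) := by
    refine lt_of_le_of_lt (degree_add_le _ _) (max_lt ?_ ?_)
    · by_cases hv0 : v = 0
      · rw [hv0, mul_zero, degree_zero]; exact WithBot.bot_lt_coe _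
      · have h1 : v.natDegree < D - 1 := (Polynomial.natDegree_lt_iff_degree_lt hv0).mpr hvd
        have h2 : (X * v).natDegree < D := by
          refine lt_of_le_of_lt Polynomial.natDegree_mul_le ?_
          rw [natDegree_X]
          omega
        exact (Polynomial.natDegree_lt_iff_degree_lt (mul_ne_zero X_ne_zero hv0)).mp h2
    · refine lt_of_le_of_lt degree_C_le ?_
      exact_mod_cast hD1
  obtain ⟨hFm, hFd, hFi, hF0⟩ := hEIS D (X * v + C k) hD1 hG
  set F : ℤ[X] := X ^ D + 2 + 4 * (X * v + C k) with hF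
  have hFR : F.map (Int.castRingHom ℝ)
      = pR ^ N + ∑ i ∈ Finset.Icc 1 (D - 1), C (t i) * B i - C (x - 4 * k) := by
    have h1 : F.map (Int.castRingHom ℝ) = X ^ D + 2 + 4 * (X * v).map (Int.castRingHom ℝ)
        + 4 * C (k : ℝ) := by
      rw [hF]
      simp only [Polynomial.map_add, Polynomial.map_mul, Polynomial.map_pow, Polynomial.map_X,
        Polynomial.map_ofNat, Polynomial.map_C]
      simp only [eq_intCast]
      ring
    have h2 : C (x - 4 * k) = f - 4 * C (k : ℝ) := by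
      rw [hx, C_sub, C_mul]
      rfl
    rw [h1, h2, hf]
    ring
  have hFev : ∀ z : ℂ, ev F z = (p.eval z) ^ N
      + ∑ i ∈ Finset.Icc 1 (D - 1), (t i : ℂ) * rv (B i) z - ((x - 4 * k : ℝ) : ℂ) := by
    intro z
    have h1 : ev F z = ((F.map (Int.castRingHom ℝ)).map (algebraMap ℝ ℂ)).eval z := by
      rw [ev, cp, Polynomial.map_map]
      congr 2
    rw [h1, hFR]
    simp only [Polynomial.map_sub, Polynomial.map_add, Polynomial.map_pow, hpmap,
      Polynomial.map_sum, Polynomial.map_mul, Polynomial.map_C, eval_sub, eval_add, eval_pow,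
      Polynomial.eval_finsetSum, eval_mul, eval_C, rv]
    rfl
  have hFK : ∀ z ∈ K, ‖ev F z - (p.eval z) ^ N‖ ≤ 1 / 2 * T z ^ N := by
    intro z hz
    have hTN := pow_pos (hTpos z) N
    have hT10 : (1 : ℝ) ≤ (1 / 10 : ℝ) ^ N * T z ^ N := by
      rw [← mul_pow]
      apply one_le_pow₀
      have h1 := hβ10 z
      have h2 : 1 ≤ Q z ^ J := one_le_pow₀ (hQ1 z)
      have h3 : β z ≤ T z := by
        simp only [hT]
        exact le_mul_of_one_le_left (hβpos z).le h2
      linarith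
    have h1 : ev F z - (p.eval z) ^ N = ∑ i ∈ Finset.Icc 1 (D - 1), (t i : ℂ) * rv (B i) z
        - ((x - 4 * k : ℝ) : ℂ) := by
      rw [hFev]; ring
    rw [h1]
    have h2 : ‖∑ i ∈ Finset.Icc 1 (D - 1), (t i : ℂ) * rv (B i) z‖
        ≤ (2 / 9 + 2 * c * D * (1 / 10 : ℝ) ^ N) * T z ^ N := by
      calc ‖∑ i ∈ Finset.Icc 1 (D - 1), (t i : ℂ) * rv (B i) z‖
          ≤ ∑ i ∈ Finset.Icc 1 (D - 1), ‖(t i : ℂ) * rv (B i) z‖ := norm_sum_le _ _
        _ ≤ ∑ i ∈ Finset.Icc 1 (D - 1), ((1 / 10 : ℝ) ^ i + c * (1 / 10 : ℝ) ^ N)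
              * (2 * T z ^ N) := by
            apply Finset.sum_le_sum
            intro i hi'
            rw [norm_mul, Complex.norm_real, Real.norm_eq_abs]
            have h3 := hBb i hi' z hz
            calc |t i| * ‖rv (B i) z‖
                ≤ 2 * (((1 / 10 : ℝ) ^ i + c * (1 / 10 : ℝ) ^ N) * T z ^ N) :=
                  mul_le_mul (ht i) h3 (norm_nonneg _) (by norm_num)
              _ = _ := by ring
        _ = (∑ i ∈ Finset.Icc 1 (D - 1), (1 / 10 : ℝ) ^ i
              + ((D - 1 : ℕ) : ℝ) * (c * (1 / 10 : ℝ) ^ N)) * (2 * T z ^ N) := by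
            rw [← Finset.sum_mul, Finset.sum_add_distrib, Finset.sum_const, Nat.card_Icc,
              nsmul_eq_mul]
            congr 2
        _ ≤ (1 / 9 + D * (c * (1 / 10 : ℝ) ^ N)) * (2 * T z ^ N) := by
            apply mul_le_mul_of_nonneg_right _ (by positivity)
            apply add_le_add (LEM_geo _)
            apply mul_le_mul_of_nonneg_right _ (by positivity)
            exact_mod_cast Nat.sub_le _ _
        _ = _ := by ring
    have h3 : ‖((x - 4 * k : ℝ) : ℂ)‖ ≤ 2 * (1 / 10 : ℝ) ^ N * T z ^ N := by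
      rw [Complex.norm_real, Real.norm_eq_abs]
      calc |x - 4 * k| ≤ 2 * 1 := by linarith
        _ ≤ 2 * ((1 / 10 : ℝ) ^ N * T z ^ N) := by linarith
        _ = _ := by ring
    have h4 : ((2 * c * D + 2) * (1 / 10 : ℝ) ^ N) * T z ^ N ≤ 1 / 4 * T z ^ N :=
      mul_le_mul_of_nonneg_right hNs hTN.le
    calc ‖∑ i ∈ Finset.Icc 1 (D - 1), (t i : ℂ) * rv (B i) z - ((x - 4 * k : ℝ) : ℂ)‖
        ≤ ‖∑ i ∈ Finset.Icc 1 (D - 1), (t i : ℂ) * rv (B i) z‖ + ‖((x - 4 * k : ℝ) : ℂ)‖ :=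
          norm_sub_le _ _
      _ ≤ (2 / 9 + 2 * c * D * (1 / 10 : ℝ) ^ N) * T z ^ N + 2 * (1 / 10 : ℝ) ^ N * T z ^ N :=
          add_le_add h2 h3
      _ = 2 / 9 * T z ^ N + ((2 * c * D + 2) * (1 / 10 : ℝ) ^ N) * T z ^ N := by ring
      _ ≤ 2 / 9 * T z ^ N + 1 / 4 * T z ^ N := by linarith
      _ ≤ 1 / 2 * T z ^ N := by linarith
  have hFoff : ∀ z, z ∉ K → ‖ev F z - (p.eval z) ^ N‖ ≤ 1 / 2 * ‖(p.eval z) ^ N‖ := by
    have hpN : (p ^ N).natDegree = D := by rw [hpm.natDegree_pow, hpd]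
    have hcF : (cp F).Monic := hFm.map _
    have hcFd : (cp F).natDegree = D := by
      rw [cp, hFm.natDegree_map, hFd]
    have hdeg' : (cp F - p ^ N).degree < (p ^ N).degree := by
      have h1 : (cp F).degree = (p ^ N).degree := by
        rw [degree_eq_natDegree hcF.ne_zero, degree_eq_natDegree (hpm.pow N).ne_zero, hcFd, hpN]
      have h2 : (cp F - p ^ N).degree < (cp F).degree := by
        apply degree_sub_lt_left h1 hcF.ne_zero
        rw [hcF.leadingCoeff, (hpm.pow N).leadingCoeff]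
      rwa [h1] at h2
    have h3 := hMAXP K (fun z => T z ^ N) (cp F - p ^ N) (p ^ N) hKc (hTcont.pow N) hdeg'
      (fun z => pow_pos (hTpos z) N)
      (fun z hz => by rw [eval_pow, norm_pow, hpoff z hz])
      (fun z hz => by
        have := hFK z hz
        rw [eval_sub, eval_pow]
        exact this)
    intro z hz
    have := h3 z hz
    rw [eval_sub, eval_pow] at this
    exact this
  refine ⟨F, hFm, hFd, hFi, hF0, ?_, ?_⟩
  · intro z hz0
    apply hKsec
    by_contra hzK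
    have h1 := hFoff z hzK
    rw [hz0, zero_sub, norm_neg] at h1
    have h2 : 0 < ‖(p.eval z) ^ N‖ := by
      rw [norm_pow, hpoff z hzK]
      exact pow_pos (hTpos z) N
    linarith
  · intro z
    change ‖ev F z‖ ≤ 3 / 2 * T z ^ N
    by_cases hzK : z ∈ K
    · have h1 := hFK z hzK
      have h2 : ‖(p.eval z) ^ N‖ ≤ T z ^ N := by
        rw [norm_pow]
        exact pow_le_pow_left₀ (norm_nonneg _) (hpK z) N
      calc ‖ev F z‖ = ‖(ev F z - (p.eval z) ^ N) + (p.eval z) ^ N‖ := by rw [sub_add_cancel]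
        _ ≤ ‖ev F z - (p.eval z) ^ N‖ + ‖(p.eval z) ^ N‖ := norm_add_le _ _
        _ ≤ 1 / 2 * T z ^ N + T z ^ N := add_le_add h1 h2
        _ = 3 / 2 * T z ^ N := by ring
    · have h1 := hFoff z hzK
      have h2 : ‖(p.eval z) ^ N‖ = T z ^ N := by
        rw [norm_pow, hpoff z hzK]
      rw [h2] at h1
      calc ‖ev F z‖ = ‖(ev F z - (p.eval z) ^ N) + (p.eval z) ^ N‖ := by rw [sub_add_cancel]
        _ ≤ ‖ev F z - (p.eval z) ^ N‖ + ‖(p.eval z) ^ N‖ := norm_add_le _ _
        _ ≤ 1 / 2 * T z ^ N + T z ^ N := add_le_add h1 h2.le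
        _ = 3 / 2 * T z ^ N := by ring

theorem LEM_ci (f : ℂ → ℝ) (hf : Continuous f) : CircleIntegrable f 0 1 :=
  hf.continuousOn.circleIntegrable zero_le_one

theorem p_LEM (hTOPP : Stmt_TOPP) (hMAXP : Stmt_MAXP) (hEIS : Stmt_EIS) (hACHV : Stmt_ACHV)
    (hBIG : Stmt_BIG) : Stmt_LEM := by
  intro θ q τ hθ0 hθπ hqm hqr hqd hτ hsec
  obtain ⟨qR, hq, hqRd, hqRm⟩ := LEM_exists_real q hqr
  have hqRm' := hqRm hqm
  obtain ⟨b, hb10, hbs, hbc⟩ := hBIG θ hθ0 hθπ
  set κ : ℝ := ca (fun z => Real.log (max ‖q.eval z‖ τ)) with hκ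
  set n := q.natDegree with hn
  have hcont1 : Continuous fun z : ℂ => Real.log (max ‖q.eval z‖ τ) := by
    apply Continuous.log (by fun_prop)
    intro z
    exact (lt_of_lt_of_le (by linarith) (le_max_right _ _)).ne'
  have hcont2 : Continuous fun z : ℂ => Real.log (max ‖z - b‖ 10) := by
    apply Continuous.log (by fun_prop)
    intro z
    exact (lt_of_lt_of_le (by norm_num) (le_max_right _ _)).ne'
  have hach : ∀ J : ℕ, 1 ≤ J → Ach θ ((J * κ + ca (fun z => Real.log (max ‖z - b‖ 10)))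
      / ((n * J + 1 : ℕ) : ℝ)) := by
    intro J hJ
    have h1 := hACHV θ (n * J + 1) (fun z => (max ‖q.eval z‖ τ) ^ J * max ‖z - b‖ 10)
      (by omega) (by fun_prop)
      (fun z => by
        have h1 : 0 < max ‖q.eval z‖ τ := lt_of_lt_of_le (by linarith) (le_max_right _ _)
        have h2 : 0 < max ‖z - b‖ 10 := lt_of_lt_of_le (by norm_num) (le_max_right _ _)
        positivity)
      (by
        have := LEM_main hTOPP hMAXP hEIS θ b τ qR q hq hqRm' (by omega) hτ J hJ hsec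
          (fun z hz => (hbs z hz).1)
        rw [hqRd] at this
        exact this)
    have h2 : ca (fun z => Real.log ((max ‖q.eval z‖ τ) ^ J * max ‖z - b‖ 10))
        = J * κ + ca (fun z => Real.log (max ‖z - b‖ 10)) := by
      have e1 : (fun z : ℂ => Real.log ((max ‖q.eval z‖ τ) ^ J * max ‖z - b‖ 10))
          = fun z => J * Real.log (max ‖q.eval z‖ τ) + Real.log (max ‖z - b‖ 10) := by
        funext z
        have h1 : 0 < max ‖q.eval z‖ τ := lt_of_lt_of_le (by linarith) (le_max_right _ _)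
        have h2 : 0 < max ‖z - b‖ 10 := lt_of_lt_of_le (by norm_num) (le_max_right _ _)
        rw [Real.log_mul (by positivity) (by positivity), Real.log_pow]
      rw [ca, e1, Real.circleAverage_fun_add (LEM_ci _ (by fun_prop)) (LEM_ci _ hcont2)]
      congr 1
      exact Real.circleAverage_fun_smul (a := (J : ℝ))
        (f := fun z => Real.log (max ‖q.eval z‖ τ))
    rw [h2] at h1
    exact h1
  have hκ0 : 0 ≤ κ := by
    rw [hκ, ca]
    apply Real.circleAverage_nonneg_of_nonneg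
    intro z _
    exact Real.log_nonneg (hτ.le.trans (le_max_right _ _))
  set L : ℝ := Real.log (2 * b) with hL
  have hL0 : 0 < L := Real.log_pos (by linarith)
  intro ε hε D
  have hnpos : (0 : ℝ) < n := by exact_mod_cast hqd
  obtain ⟨J, hJ⟩ := exists_nat_gt (2 * L / (n * ε))
  have hJ0 : (0 : ℝ) < J := lt_of_le_of_lt (by positivity) hJ
  have hJ1 : 1 ≤ J := by
    have : 0 < J := by exact_mod_cast hJ0
    omega
  obtain ⟨F, hF1, hF2, hF3⟩ := hach J hJ1 (ε / 2) (by linarith) D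
  refine ⟨F, hF1, hF2, hF3.trans ?_⟩
  have h1 : (J * κ + ca (fun z => Real.log (max ‖z - b‖ 10))) / ((n * J + 1 : ℕ) : ℝ)
      ≤ (J * κ + L) / (n * J) := by
    calc (J * κ + ca (fun z => Real.log (max ‖z - b‖ 10))) / ((n * J + 1 : ℕ) : ℝ)
        ≤ (J * κ + L) / ((n * J + 1 : ℕ) : ℝ) := by
          apply div_le_div_of_nonneg_right _ (by positivity)
          linarith
      _ ≤ (J * κ + L) / (n * J) := by
          apply div_le_div_of_nonneg_left (by positivity) (by positivity)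
          push_cast
          linarith
  have h2 : (J * κ + L) / (n * J) = κ / n + L / (n * J) := by
    field_simp
  have h3 : L / (n * J) ≤ ε / 2 := by
    rw [div_lt_iff₀ (by positivity)] at hJ
    rw [div_le_iff₀ (by positivity)]
    nlinarith
  rw [h2] at h1
  linarith

end Pool.Agent.Work.MP_ce2d68_np
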