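import Pool.Agent.Work.MP_ce2d68_np.Interface

/-! Block LOC: lower bound for all degrees (typed by helper62). -/

set_option autoImplicit false

open Polynomial Filter Topology

namespace Pool.Agent.Work.MP_ce2d68_np

open Pool.Agent.Work.MP_ce2d68_st

theorem LOC_log {d : ℝ} (hd : 0 < d) : Real.log (64 * d) ≤ 16 * √d := by
  have h1 : 64 * d = (8 * √d) ^ 2 := by
    rw [mul_pow, Real.sq_sqrt hd.le]; norm_num
  have hs : 0 < √d := Real.sqrt_pos.2 hd
  rw [h1, Real.log_pow]
  have h2 := Real.log_le_sub_one_of_pos (show (0 : ℝ) < 8 * √d by positivity)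
  push_cast
  linarith

theorem LOC_deg {θ : ℝ} {P : ℤ[X]} (h : Adm θ P) : 1 ≤ P.natDegree := by
  obtain ⟨hm, hi, -⟩ := h
  rcases Nat.eq_zero_or_pos P.natDegree with h0 | h0
  · have := Polynomial.eq_one_of_monic_natDegree_zero hm h0
    rw [this] at hi
    exact absurd hi not_irreducible_one
  · exact h0

theorem LOC_lv (hVDM : Stmt_VDM) {θ : ℝ} (h0 : 0 ≤ θ) (h1 : θ < Real.pi) {P : ℤ[X]}
    (h : Adm θ P) :
    1 / 8 * Real.log (1 / lam θ) - Real.log (64 * P.natDegree) / (2 * P.natDegree) ≤ lv P := by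
  have hd : (0 : ℝ) < P.natDegree := by exact_mod_cast LOC_deg h
  have h2 := hVDM θ P h0 h1 h.1 h.2.1 h.2.2.1 h.2.2.2.1
  unfold lv
  rw [le_div_iff₀ hd]
  have h3 : (1 / 8 * Real.log (1 / lam θ) - Real.log (64 * P.natDegree) / (2 * P.natDegree)) *
      P.natDegree = P.natDegree / 8 * Real.log (1 / lam θ) -
        1 / 2 * Real.log (64 * P.natDegree) := by
    field_simp
  rw [h3]
  exact h2

theorem LOC_kappa {θ : ℝ} (h0 : 0 ≤ θ) (h1 : θ < Real.pi) :
    3 / (32 * Real.pi ^ 2) * (Real.pi - θ) ^ 2 ≤ 1 / 8 * Real.log (1 / lam θ) := by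
  have hpi := Real.pi_pos
  have hc : (Real.pi - θ) / Real.pi ≤ Real.cos (θ / 2) := by
    have h2 := Real.mul_le_sin (x := (Real.pi - θ) / 2) (by linarith) (by linarith)
    have h3 : Real.cos (θ / 2) = Real.sin ((Real.pi - θ) / 2) := by
      rw [← Real.cos_pi_div_two_sub]
      congr 1
      ring
    rw [h3]
    have h4 : 2 / Real.pi * ((Real.pi - θ) / 2) = (Real.pi - θ) / Real.pi := by
      field_simp
    rw [h4] at h2
    exact h2
  have hcn : 0 ≤ (Real.pi - θ) / Real.pi := div_nonneg (by linarith) hpi.le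
  have hc2 : ((Real.pi - θ) / Real.pi) ^ 2 ≤ Real.cos (θ / 2) ^ 2 :=
    pow_le_pow_left₀ hcn hc 2
  have hle1 : Real.cos (θ / 2) ^ 2 ≤ 1 := Real.cos_sq_le_one _
  have hl0 : 0 < lam θ := by unfold lam; linarith
  have h5 := Real.log_le_sub_one_of_pos hl0
  have h8 : Real.log (1 / lam θ) = -Real.log (lam θ) := by
    rw [one_div, Real.log_inv]
  rw [h8]
  have h6 : lam θ = 1 - 3 / 4 * Real.cos (θ / 2) ^ 2 := rfl
  have h7 : 3 / (32 * Real.pi ^ 2) * (Real.pi - θ) ^ 2 =
      3 / 32 * ((Real.pi - θ) / Real.pi) ^ 2 := by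
    field_simp
  rw [h7]
  linarith

theorem p_LOC (hVDM : Stmt_VDM) (hDOB : Stmt_DOB) : Stmt_LOC := by
  obtain ⟨T₀, hT₀, hDOB⟩ := hDOB
  have hpi := Real.pi_pos
  set c0 : ℝ := 3 / (64 * Real.pi ^ 2) with hc0
  have hc0p : 0 < c0 := by positivity
  have hpi4 : Real.pi < 4 := Real.pi_lt_four
  set l : ℝ := Real.log (4 / Real.pi) with hl
  have hl0 : 0 < l := Real.log_pos (by rw [lt_div_iff₀ hpi]; linarith)
  set A : ℝ := 64 * (64 / c0 ^ 2 + T₀ * Real.pi ^ 4) with hA
  set K : ℝ := |Real.log A| / l + 4 with hK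
  have hK4 : 4 ≤ K := by
    have : 0 ≤ |Real.log A| / l := by positivity
    linarith
  have hK0 : 0 < K := by linarith
  have hT₀r : (2 : ℝ) ≤ T₀ := by exact_mod_cast hT₀
  refine ⟨min (c0 * l ^ 9) (2 * c0 / K ^ 9), lt_min (by positivity) (by positivity), ?_⟩
  intro θ P h0 h1 hP
  set δ : ℝ := Real.pi - θ with hδ
  have hδ0 : 0 < δ := by linarith
  have hδpi : δ ≤ Real.pi := by linarith
  set L : ℝ := Real.log (4 / δ) with hL
  have hlL : l ≤ L := Real.log_le_log (by positivity)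
    (div_le_div_of_nonneg_left (by norm_num) hδ0 hδpi)
  have hL0 : 0 < L := by linarith
  have hd1 : (1 : ℝ) ≤ P.natDegree := by exact_mod_cast LOC_deg hP
  have hd : (0 : ℝ) < P.natDegree := by linarith
  have hlv := LOC_lv hVDM h0 h1 hP
  have hkap := LOC_kappa h0 h1
  have hkap' : 2 * (c0 * δ ^ 2) ≤ 1 / 8 * Real.log (1 / lam θ) := by
    have : 2 * (c0 * δ ^ 2) = 3 / (32 * Real.pi ^ 2) * (Real.pi - θ) ^ 2 := by
      rw [hc0, hδ]; field_simp; ring
    rw [this]; exact hkap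
  have hc0d : 0 < c0 * δ ^ 2 := by positivity
  by_cases hcase : Real.log (64 * P.natDegree) / (2 * P.natDegree) ≤ c0 * δ ^ 2
  · have h2 : c0 * δ ^ 2 ≤ lv P := by linarith
    refine le_trans ?_ h2
    rw [div_le_iff₀ (by positivity)]
    have h3 : min (c0 * l ^ 9) (2 * c0 / K ^ 9) ≤ c0 * L ^ 9 :=
      (min_le_left _ _).trans (mul_le_mul_of_nonneg_left
        (pow_le_pow_left₀ hl0.le hlL 9) hc0p.le)
    calc min (c0 * l ^ 9) (2 * c0 / K ^ 9) * δ ^ 2 ≤ c0 * L ^ 9 * δ ^ 2 :=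
          mul_le_mul_of_nonneg_right h3 (by positivity)
      _ = c0 * δ ^ 2 * L ^ 9 := by ring
  · push Not at hcase
    rw [lt_div_iff₀ (by positivity)] at hcase
    -- bound for the degree
    have hlog := LOC_log hd
    have hs : 0 < √(P.natDegree : ℝ) := Real.sqrt_pos.2 hd
    have hsq : √(P.natDegree : ℝ) * √(P.natDegree : ℝ) = P.natDegree := Real.mul_self_sqrt hd.le
    have h3 : c0 * δ ^ 2 * √(P.natDegree : ℝ) ≤ 8 := by
      have h4 : c0 * δ ^ 2 * (2 * P.natDegree) ≤ 16 * √(P.natDegree : ℝ) := by linarith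
      have h5 : c0 * δ ^ 2 * (2 * P.natDegree) =
          (2 * (c0 * δ ^ 2 * √(P.natDegree : ℝ))) * √(P.natDegree : ℝ) := by
        calc c0 * δ ^ 2 * (2 * P.natDegree)
            = c0 * δ ^ 2 * (2 * (√(P.natDegree : ℝ) * √(P.natDegree : ℝ))) := by rw [hsq]
          _ = (2 * (c0 * δ ^ 2 * √(P.natDegree : ℝ))) * √(P.natDegree : ℝ) := by ring
      rw [h5] at h4
      have h6 := le_of_mul_le_mul_right h4 hs
      linarith
    have h4 : (P.natDegree : ℝ) ≤ 64 / c0 ^ 2 / δ ^ 4 := by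
      rw [le_div_iff₀ (by positivity), le_div_iff₀ (by positivity)]
      have h5 : (c0 * δ ^ 2 * √(P.natDegree : ℝ)) ^ 2 ≤ 8 ^ 2 :=
        pow_le_pow_left₀ (by positivity) h3 2
      have h6 : (c0 * δ ^ 2 * √(P.natDegree : ℝ)) ^ 2 =
          P.natDegree * δ ^ 4 * c0 ^ 2 := by
        rw [mul_pow, Real.sq_sqrt hd.le]; ring
      rw [h6] at h5
      linarith
    set T : ℕ := max P.natDegree T₀ with hT
    have hTd : P.natDegree ≤ T := le_max_left _ _
    have hTT : T₀ ≤ T := le_max_right _ _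
    have hTr : (2 : ℝ) ≤ T := hT₀r.trans (by exact_mod_cast hTT)
    have hTb : (T : ℝ) ≤ (64 / c0 ^ 2 + T₀ * Real.pi ^ 4) / δ ^ 4 := by
      have e1 : (T : ℝ) ≤ P.natDegree + T₀ := by
        have : T ≤ P.natDegree + T₀ := max_le (Nat.le_add_right _ _) (Nat.le_add_left _ _)
        exact_mod_cast this
      have e2 : (T₀ : ℝ) ≤ T₀ * Real.pi ^ 4 / δ ^ 4 := by
        rw [le_div_iff₀ (by positivity)]
        exact mul_le_mul_of_nonneg_left (pow_le_pow_left₀ hδ0.le hδpi 4) (by positivity)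
      rw [add_div]
      linarith
    have hlogT0 : 0 < Real.log T := Real.log_pos (by linarith)
    set Λ : ℝ := Real.log (64 * T) with hΛ
    have hΛT : Real.log T ≤ Λ := Real.log_le_log (by linarith) (by linarith)
    have hΛ0 : 0 < Λ := by linarith
    have hΛd : Real.log (64 * P.natDegree) ≤ Λ := by
      refine Real.log_le_log (by positivity) ?_
      have : (P.natDegree : ℝ) ≤ T := by exact_mod_cast hTd
      linarith
    have hA0 : 0 < A := by positivity
    have hΛL : Λ ≤ K * L := by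
      have e1 : Λ ≤ Real.log (A / δ ^ 4) := by
        refine Real.log_le_log (by linarith) ?_
        rw [hA, mul_div_assoc]
        linarith
      have e2 : Real.log (A / δ ^ 4) = Real.log A + 4 * (L - Real.log 4) := by
        rw [Real.log_div hA0.ne' (by positivity), Real.log_pow, hL,
          Real.log_div (by norm_num) hδ0.ne']
        push_cast
        ring
      have e3 : 0 ≤ Real.log 4 := Real.log_nonneg (by norm_num)
      have e4 : Real.log A ≤ |Real.log A| / l * L := by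
        calc Real.log A ≤ |Real.log A| := le_abs_self _
          _ = |Real.log A| / l * l := by field_simp
          _ ≤ |Real.log A| / l * L := mul_le_mul_of_nonneg_left hlL (by positivity)
      rw [e2] at e1
      calc Λ ≤ Real.log A + 4 * (L - Real.log 4) := e1
        _ ≤ |Real.log A| / l * L + 4 * L := by linarith
        _ = K * L := by rw [hK]; ring
    have hdob := hDOB T hTT θ P hP hTd
    -- the lower bound
    have h7 : 2 * (c0 * δ ^ 2) / Λ ^ 9 ≤ lv P := by
      unfold lv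
      rw [le_div_iff₀ hd]
      refine le_trans ?_ hdob
      rw [div_mul_eq_mul_div, div_le_div_iff₀ (by positivity) (by positivity)]
      have h8 : 2 * (c0 * δ ^ 2) * P.natDegree ≤ Λ := by
        have : c0 * δ ^ 2 * (2 * P.natDegree) ≤ Λ := by linarith
        linarith
      have h9 : Real.log T ^ 8 ≤ Λ ^ 8 := pow_le_pow_left₀ hlogT0.le hΛT 8
      calc 2 * (c0 * δ ^ 2) * P.natDegree * Real.log T ^ 8 ≤ Λ * Λ ^ 8 :=
            mul_le_mul h8 h9 (by positivity) hΛ0.le
        _ = 1 * Λ ^ 9 := by ring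
    refine le_trans ?_ h7
    rw [div_le_div_iff₀ (by positivity) (by positivity)]
    have h10 : Λ ^ 9 ≤ (K * L) ^ 9 := pow_le_pow_left₀ hΛ0.le hΛL 9
    calc min (c0 * l ^ 9) (2 * c0 / K ^ 9) * δ ^ 2 * Λ ^ 9
        ≤ 2 * c0 / K ^ 9 * δ ^ 2 * (K * L) ^ 9 :=
          mul_le_mul (mul_le_mul_of_nonneg_right (min_le_right _ _) (by positivity)) h10
            (by positivity) (by positivity)
      _ = 2 * (c0 * δ ^ 2) * L ^ 9 := by
          field_simp

end Pool.Agent.Work.MP_ce2d68_np
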