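import Pool.Agent.Work.MP_ce2d68_np.Interface

set_option autoImplicit false

/-! Block `LOW` of `MP_ce2d68_np` (typed by helper87). -/

namespace Pool.Agent.Work.MP_ce2d68_np

theorem LOW_mono (w t : ℝ) (hw : 1 ≤ w) (ht : 0 < t) (h : t + t⁻¹ ≤ w + w⁻¹) : t ≤ w := by
  by_contra hlt
  have hlt : w < t := not_le.1 hlt
  have hw0 : 0 < w := by linarith
  have h1 : 1 < t * w := by nlinarith
  have h2 : t + t⁻¹ - (w + w⁻¹) = (t - w) * (t * w - 1) / (t * w) := by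
    field_simp
    ring
  have h3 : 0 < (t - w) * (t * w - 1) / (t * w) :=
    div_pos (mul_pos (by linarith) (by linarith)) (by linarith)
  linarith

theorem LOW_hh (R : ℝ) (z : ℂ) (hR : 0 < R) (hz : z ≠ 0) : 1 ≤ hh R z := by
  have hn : 0 < ‖z‖ := norm_pos_iff.2 hz
  unfold hh
  have h2 : (‖z‖ / R + R / ‖z‖) / 2 - 1 = (‖z‖ - R) ^ 2 / (2 * (R * ‖z‖)) := by
    field_simp
    ring
  have h3 : 0 ≤ (‖z‖ - R) ^ 2 / (2 * (R * ‖z‖)) := by positivity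
  linarith

theorem p_LOW (hS : Stmt_CHS) : Stmt_LOW := by
  intro R B z w hR hB hB1 hz hJ
  have hn : 0 < ‖z‖ := norm_pos_iff.2 hz
  have h1 := hS R B z w hR hB hz hJ
  have hh1 := LOW_hh R z hR hz
  set h := hh R z with hdef
  set c := cc z with hc
  have hsq : (B * h + c) ^ 2 ≤ h ^ 2 + 2 * h * c * B + B ^ 2 + c ^ 2 - 1 := by
    have e1 : h ^ 2 + 2 * h * c * B + B ^ 2 + c ^ 2 - 1 - (B * h + c) ^ 2
        = ((1 - B) * (1 + B)) * ((h - 1) * (h + 1)) := by ring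
    have e2 : 0 ≤ ((1 - B) * (1 + B)) * ((h - 1) * (h + 1)) :=
      mul_nonneg (mul_nonneg (by linarith) (by linarith)) (mul_nonneg (by linarith) (by linarith))
    linarith
  have hs : B * h + c ≤ √(h ^ 2 + 2 * h * c * B + B ^ 2 + c ^ 2 - 1) :=
    le_trans (le_abs_self _) (Real.abs_le_sqrt hsq)
  have hB0 : 0 < 1 + B := by linarith
  have h2 : 2 * h ≤ ‖w‖ + ‖w‖⁻¹ := by
    have h3 : (1 + B) * (2 * h) ≤ (1 + B) * (‖w‖ + ‖w‖⁻¹) := by
      rw [h1]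
      nlinarith
    exact le_of_mul_le_mul_left h3 hB0
  have h4 : 2 * h = ‖z‖ / R + R / ‖z‖ := by
    rw [hdef]
    unfold hh
    ring
  have hw1 : 1 ≤ ‖w‖ := hJ.1
  have e5 : (‖z‖ / R)⁻¹ = R / ‖z‖ := inv_div _ _
  have e6 : (R / ‖z‖)⁻¹ = ‖z‖ / R := inv_div _ _
  constructor
  · apply LOW_mono _ _ hw1 (by positivity)
    rw [e5]
    linarith
  · apply LOW_mono _ _ hw1 (by positivity)
    rw [e6]
    linarith

end Pool.Agent.Work.MP_ce2d68_np
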