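import Pool.Agent.Work.MP_ce2d68_np.Interface

set_option autoImplicit false

open Polynomial Filter Topology
open scoped ComplexConjugate

namespace Pool.Agent.Work.MP_ce2d68_np

open Pool.Agent.Work.MP_ce2d68_st

/-- lower bound of the constant -/
theorem STA_low (hTRL : Stmt_TRL) {θ m : ℝ} (hm : ∀ P : ℤ[X], Adm θ P → m ≤ lv P)
    (hne : {α | IsSec θ α}.Nonempty) : Real.exp m ≤ cth θ := by
  rw [cth]
  apply le_csInf (hne.image _)
  rintro _ ⟨α, hα, rfl⟩
  obtain ⟨h1, h2, -⟩ := hTRL.1 θ α hα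
  rw [h2]
  exact Real.exp_le_exp.mpr (hm _ h1)

theorem STA_nM_nonneg (hTRL : Stmt_TRL) {θ : ℝ} : ∀ x ∈ nM '' {α | IsSec θ α}, (0 : ℝ) ≤ x := by
  rintro _ ⟨α, hα, rfl⟩
  obtain ⟨h1, h2, -⟩ := hTRL.1 θ α hα
  rw [h2]
  exact (Real.exp_pos _).le

/-- upper bound of the constant -/
theorem STA_up (hTRL : Stmt_TRL) {θ x : ℝ} (h : Ach θ x) :
    {α | IsSec θ α}.Nonempty ∧ cth θ ≤ Real.exp x := by
  have key : ∀ ε : ℝ, 0 < ε → {α | IsSec θ α}.Nonempty ∧ cth θ ≤ Real.exp (x + ε) := by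
    intro ε hε
    obtain ⟨F, hF, -, hlv⟩ := h ε hε 0
    obtain ⟨⟨α, hα⟩, h2⟩ := hTRL.2 θ F hF
    obtain ⟨h3, h4⟩ := h2 α hα
    refine ⟨⟨α, h3⟩, ?_⟩
    refine (csInf_le ⟨0, STA_nM_nonneg hTRL⟩ ⟨α, h3, rfl⟩).trans ?_
    rw [(hTRL.1 θ α h3).2.1, h4]
    exact Real.exp_le_exp.mpr hlv
  refine ⟨(key 1 one_pos).1, ?_⟩
  have ht : Tendsto (fun ε : ℝ => Real.exp (x + ε)) (𝓝[>] 0) (𝓝 (Real.exp (x + 0))) := by
    apply Tendsto.mono_left _ nhdsWithin_le_nhds
    exact (Real.continuous_exp.comp (continuous_const.add continuous_id)).tendsto 0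
  rw [add_zero] at ht
  apply ge_of_tendsto ht
  filter_upwards [self_mem_nhdsWithin] with ε hε
  exact (key ε hε).2

theorem STA_up2 (hUPB : Stmt_UPB) (hTRL : Stmt_TRL) {θ : ℝ} (h0 : 0 < θ) (h1 : θ < Real.pi) :
    {α | IsSec θ α}.Nonempty ∧ Real.sin (θ / 2) * cth θ ≤ 1 := by
  have hs : 0 < Real.sin (θ / 2) := Real.sin_pos_of_pos_of_lt_pi (by linarith) (by linarith)
  have key : ∀ R : ℝ, 1 / Real.sin (θ / 2) < R → {α | IsSec θ α}.Nonempty ∧ cth θ ≤ R := by
    intro R hR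
    have hR0 : 0 < R := lt_trans (by positivity) hR
    obtain ⟨h2, h3⟩ := STA_up hTRL (hUPB θ R h0 h1 hR)
    rw [Real.exp_log hR0] at h3
    exact ⟨h2, h3⟩
  refine ⟨(key (1 / Real.sin (θ / 2) + 1) (by linarith)).1, ?_⟩
  have h4 : cth θ ≤ 1 / Real.sin (θ / 2) := le_of_forall_gt_imp_ge_of_dense (fun R hR => (key R hR).2)
  rw [le_div_iff₀ hs] at h4
  linarith

theorem p_STA (hLOC : Stmt_LOC) (hUPB : Stmt_UPB) (hTRL : Stmt_TRL) : Stmt_STA := by
  obtain ⟨k, hk, hloc⟩ := hLOC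
  have hpi := Real.pi_pos
  have hpi4 := Real.pi_lt_four
  have hl0 : 0 < Real.log (4 / Real.pi) := Real.log_pos (by rw [lt_div_iff₀ hpi]; linarith)
  refine ⟨1 / (4 * k) + 4 / Real.log (4 / Real.pi) ^ 9, by positivity, ?_⟩
  intro a b ha hab hb hst
  have hapi : a < Real.pi := by linarith
  have hpa : 0 < Real.pi - a := by linarith
  have hlogpos : ∀ x : ℝ, 0 ≤ x → x < Real.pi → Real.log (4 / Real.pi) ≤ Real.log (4 / (Real.pi - x)) := by
    intro x hx0 hx
    apply Real.log_le_log (by positivity)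
    exact div_le_div_of_nonneg_left (by norm_num) (by linarith) (by linarith)
  set m : ℝ := k * (Real.pi - a) ^ 2 / Real.log (4 / (Real.pi - a)) ^ 9 with hm
  have hla : 0 < Real.log (4 / (Real.pi - a)) := lt_of_lt_of_le hl0 (hlogpos a ha hapi)
  have hm0 : 0 < m := by positivity
  -- values inside
  have hin : ∀ θ, a < θ → θ < b → Real.sin (θ / 2) * Real.exp m ≤ 1 := by
    intro θ h1 h2
    have hθ0 : 0 < θ := by linarith
    have hθpi : θ < Real.pi := by linarith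
    obtain ⟨hne, hup⟩ := STA_up2 hUPB hTRL hθ0 hθpi
    have heq : cth a = cth θ := hst a ⟨le_refl a, hab⟩ θ ⟨h1.le, h2⟩
    have hθl : 0 < Real.log (4 / (Real.pi - θ)) := lt_of_lt_of_le hl0 (hlogpos θ hθ0.le hθpi)
    have hpos : 0 < cth θ := lt_of_lt_of_le (Real.exp_pos _)
      (STA_low hTRL (fun P hP => hloc θ P hθ0.le hθpi hP) hne)
    have hnea : {α | IsSec a α}.Nonempty := by
      by_contra hcon
      rw [Set.not_nonempty_iff_eq_empty] at hcon
      rw [← heq, cth, hcon, Set.image_empty, Real.sInf_empty] at hpos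
      exact lt_irrefl _ hpos
    have hlow := STA_low hTRL (fun P hP => hloc a P ha hapi hP) hnea
    rw [heq] at hlow
    have hs : 0 < Real.sin (θ / 2) := Real.sin_pos_of_pos_of_lt_pi (by linarith) (by linarith)
    calc Real.sin (θ / 2) * Real.exp m ≤ Real.sin (θ / 2) * cth θ :=
          mul_le_mul_of_nonneg_left hlow hs.le
      _ ≤ 1 := hup
  have hb1 : Real.sin (b / 2) * Real.exp m ≤ 1 := by
    have ht : Tendsto (fun θ : ℝ => Real.sin (θ / 2) * Real.exp m) (𝓝[<] b)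
        (𝓝 (Real.sin (b / 2) * Real.exp m)) := by
      apply Tendsto.mono_left _ nhdsWithin_le_nhds
      exact ((Real.continuous_sin.comp (continuous_id.div_const 2)).mul continuous_const).tendsto b
    apply le_of_tendsto ht
    filter_upwards [Ioo_mem_nhdsLT hab] with θ hθ
    exact hin θ hθ.1 hθ.2
  have hbpi : b < Real.pi := by
    rcases hb.lt_or_eq with h | h
    · exact h
    · exfalso
      rw [h, Real.sin_pi_div_two, one_mul] at hb1
      have := Real.add_one_lt_exp hm0.ne'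
      linarith
  refine ⟨hbpi, ?_⟩
  have hpb : 0 < Real.pi - b := by linarith
  have hlb : Real.log (4 / Real.pi) ≤ Real.log (4 / (Real.pi - b)) := hlogpos b (by linarith) hbpi
  have hlb0 : 0 < Real.log (4 / (Real.pi - b)) := lt_of_lt_of_le hl0 hlb
  rcases le_or_gt (Real.pi / 2) b with hb2 | hb2
  · -- b ≥ π/2
    have hx : Real.sin (b / 2) = Real.cos ((Real.pi - b) / 2) := by
      rw [← Real.sin_pi_div_two_sub]
      congr 1
      ring
    set x := (Real.pi - b) / 2 with hxdef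
    have hx0 : 0 < x := by rw [hxdef]; linarith
    have hx4 : x ≤ Real.pi / 4 := by rw [hxdef]; linarith
    have hcos1 : 1 - x ^ 2 / 2 ≤ Real.cos x := Real.one_sub_sq_div_two_le_cos
    have hcos2 : 1 / 2 ≤ Real.cos x := by
      have hx1 : x ≤ 1 := by linarith
      nlinarith
    have hcos0 : 0 < Real.cos x := by linarith
    have h1 : Real.exp m ≤ 1 / Real.cos x := by
      rw [le_div_iff₀ hcos0, mul_comm, ← hx]
      exact hb1
    have h2 : m ≤ x ^ 2 := by
      have h3 := Real.add_one_le_exp m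
      have h4 : 1 / Real.cos x ≤ 1 + x ^ 2 := by
        rw [div_le_iff₀ hcos0]
        nlinarith [sq_nonneg x]
      linarith
    have h5 : k * (Real.pi - a) ^ 2 ≤ x ^ 2 * Real.log (4 / (Real.pi - a)) ^ 9 := by
      rw [hm, div_le_iff₀ (by positivity)] at h2
      exact h2
    have h6 : Real.log (4 / (Real.pi - a)) ^ 9 ≤ Real.log (4 / (Real.pi - b)) ^ 9 := by
      apply pow_le_pow_left₀ hla.le
      apply Real.log_le_log (by positivity)
      exact div_le_div_of_nonneg_left (by norm_num) hpb (by linarith)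
    have h7 : (Real.pi - a) ^ 2 ≤ 1 / (4 * k) * (Real.pi - b) ^ 2 * Real.log (4 / (Real.pi - b)) ^ 9 := by
      have h8 : 1 / (4 * k) * (Real.pi - b) ^ 2 * Real.log (4 / (Real.pi - b)) ^ 9 =
          (x ^ 2 * Real.log (4 / (Real.pi - b)) ^ 9) / k := by
        rw [hxdef]
        field_simp
        ring
      rw [h8, le_div_iff₀ hk]
      calc (Real.pi - a) ^ 2 * k = k * (Real.pi - a) ^ 2 := mul_comm _ _
        _ ≤ x ^ 2 * Real.log (4 / (Real.pi - a)) ^ 9 := h5
        _ ≤ x ^ 2 * Real.log (4 / (Real.pi - b)) ^ 9 := mul_le_mul_of_nonneg_left h6 (sq_nonneg x)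
    refine h7.trans ?_
    have h9 : 0 ≤ 4 / Real.log (4 / Real.pi) ^ 9 := by positivity
    have h10 : 0 ≤ (Real.pi - b) ^ 2 * Real.log (4 / (Real.pi - b)) ^ 9 := by positivity
    nlinarith [mul_nonneg h9 h10]
  · -- b < π/2
    have h1 : (Real.pi - a) ^ 2 ≤ 4 * (Real.pi - b) ^ 2 := by nlinarith
    have h2 : Real.log (4 / Real.pi) ^ 9 ≤ Real.log (4 / (Real.pi - b)) ^ 9 :=
      pow_le_pow_left₀ hl0.le hlb 9
    have h3 : 1 ≤ Real.log (4 / (Real.pi - b)) ^ 9 / Real.log (4 / Real.pi) ^ 9 := by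
      rw [one_le_div (by positivity)]
      exact h2
    have h4 : 4 * (Real.pi - b) ^ 2 ≤ 4 / Real.log (4 / Real.pi) ^ 9 * (Real.pi - b) ^ 2 *
        Real.log (4 / (Real.pi - b)) ^ 9 := by
      have h5 : 4 / Real.log (4 / Real.pi) ^ 9 * (Real.pi - b) ^ 2 *
        Real.log (4 / (Real.pi - b)) ^ 9 = 4 * (Real.pi - b) ^ 2 *
          (Real.log (4 / (Real.pi - b)) ^ 9 / Real.log (4 / Real.pi) ^ 9) := by ring
      rw [h5]
      exact le_mul_of_one_le_right (by positivity) h3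
    have h9 : 0 ≤ 1 / (4 * k) := by positivity
    have h10 : 0 ≤ (Real.pi - b) ^ 2 * Real.log (4 / (Real.pi - b)) ^ 9 := by positivity
    nlinarith [mul_nonneg h9 h10]

end Pool.Agent.Work.MP_ce2d68_np
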