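import Pool.Agent.Work.MP_ce2d68_np.Interface

set_option autoImplicit false

namespace Pool.Agent.Work.MP_ce2d68_np

theorem SUMK_step (d : ℕ) : ∑ j ∈ Finset.range (d + 4), min (j / 3) (d + 4 - 1 - j) =
    ∑ j ∈ Finset.range d, min (j / 3) (d - 1 - j) + d := by
  rw [Finset.sum_range_succ, Finset.sum_range_succ', Finset.sum_range_succ', Finset.sum_range_succ']
  have h1 : ∑ k ∈ Finset.range d, min ((k + 1 + 1 + 1) / 3) (d + 4 - 1 - (k + 1 + 1 + 1)) =
      ∑ j ∈ Finset.range d, (min (j / 3) (d - 1 - j) + 1) := by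
    refine Finset.sum_congr rfl fun i hi => ?_
    rw [Finset.mem_range] at hi
    omega
  rw [h1, Finset.sum_add_distrib, Finset.sum_const, Finset.card_range, smul_eq_mul, mul_one]
  omega

theorem SUMK_nat (d : ℕ) : (d : ℝ) ^ 2 / 8 - d ≤
    ((∑ j ∈ Finset.range d, min (j / 3) (d - 1 - j) : ℕ) : ℝ) := by
  induction d using Nat.strong_induction_on with
  | _ d ih =>
    by_cases hd : d < 4
    · have h1 : (0 : ℝ) ≤ ((∑ j ∈ Finset.range d, min (j / 3) (d - 1 - j) : ℕ) : ℝ) :=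
        Nat.cast_nonneg _
      have h2 : (d : ℝ) ≤ 4 := by exact_mod_cast hd.le
      have h3 : (0 : ℝ) ≤ d := Nat.cast_nonneg _
      nlinarith
    · obtain ⟨e, rfl⟩ := Nat.exists_eq_add_of_le (not_lt.1 hd)
      rw [add_comm 4 e, SUMK_step]
      have h1 := ih e (by omega)
      push_cast at h1 ⊢
      nlinarith

theorem p_SUMK : Stmt_SUMK := by
  intro d
  have h1 := SUMK_nat d
  push_cast at h1 ⊢
  exact h1

end Pool.Agent.Work.MP_ce2d68_np
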