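import Pool.Agent.Work.MP_ce2d68_np.Interface

set_option autoImplicit false

open Polynomial Filter Topology
open scoped ComplexConjugate

namespace Pool.Agent.Work.MP_ce2d68_np

open Pool.Agent.Work.MP_ce2d68_st

/-- choice of `B` -/
theorem UPB_B (θ R : ℝ) (h0 : 0 < θ) (hπ : θ < Real.pi) (hR : 1 / Real.sin (θ / 2) < R) :
    1 < R ∧ ∃ B : ℝ, -1 < B ∧ B < -Real.cos θ ∧ 1 < R ^ 2 * (1 + B) / 2 := by
  have hs : 0 < Real.sin (θ / 2) := Real.sin_pos_of_pos_of_lt_pi (by linarith) (by linarith)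
  have hs1 : Real.sin (θ / 2) ≤ 1 := Real.sin_le_one _
  have hRs : 1 < R * Real.sin (θ / 2) := by
    rwa [div_lt_iff₀ hs] at hR
  have hR1 : 1 < R := by
    refine lt_of_le_of_lt ?_ hR
    rw [le_div_iff₀ hs]
    linarith
  refine ⟨hR1, ?_⟩
  have hcos : Real.cos θ = 1 - 2 * Real.sin (θ / 2) ^ 2 := by
    have h := Real.cos_two_mul (θ / 2)
    have h2 := Real.sin_sq_add_cos_sq (θ / 2)
    have e : 2 * (θ / 2) = θ := by ring
    rw [e] at h
    linarith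
  have hsq : 1 < R ^ 2 * Real.sin (θ / 2) ^ 2 := by
    have : R ^ 2 * Real.sin (θ / 2) ^ 2 = (R * Real.sin (θ / 2)) ^ 2 := by ring
    rw [this]
    nlinarith
  have hRp : (0 : ℝ) < R ^ 2 := by positivity
  set b : ℝ := 2 / R ^ 2 - 1 with hb
  have hb1 : -1 < b := by
    rw [hb]
    have : 0 < 2 / R ^ 2 := by positivity
    linarith
  have hb2 : b < -Real.cos θ := by
    rw [hb, hcos]
    have : 2 / R ^ 2 < 2 * Real.sin (θ / 2) ^ 2 := by
      rw [div_lt_iff₀ hRp]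
      nlinarith
    linarith
  refine ⟨(b + -Real.cos θ) / 2, by linarith, by linarith, ?_⟩
  have h1 : R ^ 2 * (1 + b) / 2 = 1 := by
    rw [hb]
    field_simp
    ring
  have h2 : R ^ 2 * (1 + b) / 2 < R ^ 2 * (1 + (b + -Real.cos θ) / 2) / 2 := by
    have : R ^ 2 * b < R ^ 2 * ((b + -Real.cos θ) / 2) := by
      apply mul_lt_mul_of_pos_left _ hRp
      linarith
    nlinarith
  linarith

/-- choice of `k` -/
theorem UPB_k (c w : ℝ) (hc : 1 < c) (hw : 1 < w) :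
    ∃ k : ℕ, 1 ≤ k ∧ 4 < c ^ k ∧ 2 ≤ (w ^ k) ^ 2 := by
  obtain ⟨n, hn⟩ := pow_unbounded_of_one_lt 4 hc
  obtain ⟨m, hm⟩ := pow_unbounded_of_one_lt 2 hw
  refine ⟨n + m + 1, by omega, ?_, ?_⟩
  · exact hn.trans_le (pow_le_pow_right₀ hc.le (by omega))
  · have h1 : w ^ m ≤ w ^ (n + m + 1) := pow_le_pow_right₀ hw.le (by omega)
    have h2 : 2 < w ^ (n + m + 1) := hm.trans_le h1
    nlinarith

/-- the lower bound for `w^k + w^(-k)` -/
theorem UPB_w (w : ℂ) (w1 : ℝ) (k : ℕ) (h1 : 1 < w1) (hk : 2 ≤ (w1 ^ k) ^ 2) (hw : w1 ≤ ‖w‖) :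
    ‖w‖ ^ k / 2 ≤ ‖w ^ k + w⁻¹ ^ k‖ := by
  have hw0 : 0 < ‖w‖ := by linarith
  set t : ℝ := ‖w‖ ^ k with ht
  have htp : 0 < t := by positivity
  have h2 : w1 ^ k ≤ t := pow_le_pow_left₀ (by linarith) hw k
  have h3 : 2 ≤ t ^ 2 := hk.trans (pow_le_pow_left₀ (by positivity) h2 2)
  have h4 : t⁻¹ ≤ t / 2 := by
    rw [inv_le_iff_one_le_mul₀ htp]
    nlinarith
  have h5 : ‖w ^ k‖ - ‖w⁻¹ ^ k‖ ≤ ‖w ^ k + w⁻¹ ^ k‖ := by
    have := norm_sub_norm_le (w ^ k) (-(w⁻¹ ^ k))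
    rwa [norm_neg, sub_neg_eq_add] at this
  have h6 : ‖w ^ k‖ = t := by rw [norm_pow]
  have h7 : ‖w⁻¹ ^ k‖ = t⁻¹ := by rw [norm_pow, norm_inv, inv_pow]
  rw [h6, h7] at h5
  linarith

theorem UPB_cos (θ : ℝ) (z : ℂ) (h0 : 0 < θ) (hz : z ≠ 0) (hθ : θ < |z.arg|) :
    cc z < - -Real.cos θ := by
  unfold cc
  rw [← Complex.cos_arg hz, ← Real.cos_abs, neg_neg]
  exact Real.cos_lt_cos_of_nonneg_of_le_pi h0.le (Complex.abs_arg_le_pi z) hθ

theorem p_UPB (hLEM : Stmt_LEM) (hCHP : Stmt_CHP) (hCHX : Stmt_CHX) (hCHV : Stmt_CHV)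
    (hLOW : Stmt_LOW) (hGAP : Stmt_GAP) : Stmt_UPB := by
  intro θ R h0 hπ hR
  obtain ⟨hR1, B, hB1, hBC, hc0⟩ := UPB_B θ R h0 hπ hR
  have hRp : 0 < R := by linarith
  have hC1 : -Real.cos θ < 1 := by
    have h := Real.cos_lt_cos_of_nonneg_of_le_pi h0.le le_rfl hπ
    rw [Real.cos_pi] at h
    linarith
  have hB1' : B ≤ 1 := by linarith
  obtain ⟨w₀, hw₀, hgap⟩ := hGAP B (-Real.cos θ) hB1 hBC hC1
  set w1 : ℝ := min w₀ R with hw1
  have hw11 : 1 < w1 := lt_min hw₀ hR1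
  set c0 : ℝ := R ^ 2 * (1 + B) / 2 with hc0d
  obtain ⟨k, hk1, hk2, hk3⟩ := UPB_k c0 w1 hc0 hw11
  set L : ℝ := R * (1 + B) / 2 with hL
  have hLp : 0 < L := by
    rw [hL]
    have : 0 < 1 + B := by linarith
    positivity
  have hLR : L * R = c0 := by rw [hL, hc0d]; ring
  obtain ⟨hmon, hdeg, hreal, hev0⟩ := hCHP R B k hk1
  set q : ℂ[X] := EE R B k with hq
  -- the lower bound off the sector and on the circle
  have hlow : ∀ z : ℂ, z ≠ 0 → (‖z‖ = 1 ∨ θ < |z.arg|) → 2 < ‖q.eval z‖ := by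
    intro z hz hz2
    obtain ⟨w, hw⟩ := hCHX R B z hRp hB1
    obtain ⟨hl1, hl2⟩ := hLOW R B z w hRp hB1 hB1' hz hw
    have hzp : 0 < ‖z‖ := norm_pos_iff.2 hz
    have hww : w1 ≤ ‖w‖ := by
      rcases hz2 with h | h
      · rw [h, div_one] at hl2
        exact (min_le_right _ _).trans hl2
      · exact (min_le_left _ _).trans (hgap R z w hRp hz (UPB_cos θ z h0 hz h) hw)
    have hzw : R ≤ ‖z‖ * ‖w‖ := by
      rw [div_le_iff₀ hzp] at hl2
      linarith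
    have hval := hCHV R B z w hRp hB1 hz hw k
    rw [← hq, ← hL] at hval
    rw [hval, norm_mul, norm_pow, norm_mul, Complex.norm_real, Real.norm_of_nonneg hLp.le]
    have hb := UPB_w w w1 k hw11 hk3 hww
    have h1 : c0 ^ k ≤ (L * ‖z‖) ^ k * ‖w‖ ^ k := by
      rw [← mul_pow]
      apply pow_le_pow_left₀ (by linarith)
      rw [← hLR, mul_assoc]
      exact mul_le_mul_of_nonneg_left hzw hLp.le
    have h2 : (L * ‖z‖) ^ k * (‖w‖ ^ k / 2) ≤ (L * ‖z‖) ^ k * ‖w ^ k + w⁻¹ ^ k‖ :=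
      mul_le_mul_of_nonneg_left hb (by positivity)
    linarith
  -- the roots
  have hroot : ∀ a ∈ q.roots, ‖a‖ = R := by
    intro a ha
    have hqa : q.eval a = 0 := (mem_roots'.1 ha).2
    have ha0 : a ≠ 0 := by
      rintro rfl
      rw [hqa] at hev0
      have : (((R ^ 2) ^ k : ℝ) : ℂ) ≠ 0 := by
        rw [Complex.ofReal_ne_zero]
        positivity
      exact this hev0.symm
    obtain ⟨w, hw⟩ := hCHX R B a hRp hB1
    obtain ⟨hl1, hl2⟩ := hLOW R B a w hRp hB1 hB1' ha0 hw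
    have hval := hCHV R B a w hRp hB1 ha0 hw k
    rw [← hq, ← hL, hqa] at hval
    have hap : 0 < ‖a‖ := norm_pos_iff.2 ha0
    have hLa : ((L : ℂ) * a) ^ k ≠ 0 :=
      pow_ne_zero _ (mul_ne_zero (Complex.ofReal_ne_zero.2 hLp.ne') ha0)
    have hsum : w ^ k + w⁻¹ ^ k = 0 := by
      rcases mul_eq_zero.1 hval.symm with h | h
      · exact absurd h hLa
      · exact h
    have hwp : 0 < ‖w‖ := lt_of_lt_of_le one_pos hw.1
    have hnorm : ‖w‖ ^ k = (‖w‖ ^ k)⁻¹ := by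
      have h1 : w ^ k = -(w⁻¹ ^ k) := eq_neg_of_add_eq_zero_left hsum
      have h2 := congrArg norm h1
      rwa [norm_neg, norm_pow, norm_pow, norm_inv, inv_pow] at h2
    have hone : ‖w‖ ^ k = 1 := by
      have hp : 0 < ‖w‖ ^ k := by positivity
      have h3 : ‖w‖ ^ k * ‖w‖ ^ k = 1 := by
        nth_rewrite 2 [hnorm]
        exact mul_inv_cancel₀ hp.ne'
      nlinarith
    have hw1' : ‖w‖ = 1 := (pow_eq_one_iff_of_nonneg hwp.le (by omega)).1 hone
    rw [hw1', div_le_iff₀ hRp] at hl1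
    rw [hw1', div_le_iff₀ hap] at hl2
    linarith
  -- apply LEM
  have hLEM' := hLEM θ q 2 h0 hπ hmon hreal (by rw [hdeg]; omega) (by norm_num) (by
    intro z hz
    by_cases hz0 : z = 0
    · rw [hz0, Complex.arg_zero, abs_zero]
      exact h0.le
    · by_contra hcon
      push Not at hcon
      have := hlow z hz0 (Or.inr hcon)
      linarith)
  have hca : ca (fun z => Real.log (max ‖q.eval z‖ 2)) = q.logMahlerMeasure := by
    unfold ca Polynomial.logMahlerMeasure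
    apply Real.circleAverage_congr_sphere
    intro z hz
    have hz1 : ‖z‖ = 1 := by
      rw [abs_one, mem_sphere_zero_iff_norm] at hz
      exact hz
    have hz0 : z ≠ 0 := by
      rintro rfl
      rw [norm_zero] at hz1
      exact zero_ne_one hz1
    have := hlow z hz0 (Or.inl hz1)
    show Real.log (max ‖q.eval z‖ 2) = Real.log ‖q.eval z‖
    rw [max_eq_left this.le]
  have hlog : q.logMahlerMeasure = (2 * k : ℕ) * Real.log R := by
    rw [logMahlerMeasure_eq_log_leadingCoeff_add_sum_log_roots, hmon.leadingCoeff, norm_one,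
      Real.log_one, zero_add]
    have h1 : q.roots.map (fun a => Real.posLog ‖a‖) = q.roots.map (fun _ => Real.log R) := by
      apply Multiset.map_congr rfl
      intro a ha
      rw [hroot a ha]
      exact Real.posLog_eq_log (by rw [abs_of_pos hRp]; exact hR1.le)
    rw [h1, Multiset.map_const', Multiset.sum_replicate, nsmul_eq_mul,
      IsAlgClosed.card_roots_eq_natDegree, hdeg]
  rw [hca, hlog, hdeg] at hLEM'
  have hk0 : ((2 * k : ℕ) : ℝ) ≠ 0 := by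
    have : 0 < 2 * k := by omega
    positivity
  rwa [mul_div_cancel_left₀ _ hk0] at hLEM'

end Pool.Agent.Work.MP_ce2d68_np
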