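import Pool.Agent.Work.MP_ce2d68_np.Interface

set_option autoImplicit false

open Polynomial Filter Topology
open scoped ComplexConjugate

namespace Pool.Agent.Work.MP_ce2d68_np

/-- `t + 1/t` is increasing on `[1, ∞)` -/
theorem UPW_mono {x y : ℝ} (hx : 1 ≤ x) (hy : 1 ≤ y) (h : x + x⁻¹ ≤ y + y⁻¹) : x ≤ y := by
  by_contra hc
  push Not at hc
  have hx0 : 0 < x := by linarith
  have hy0 : 0 < y := by linarith
  have h1 : x + x⁻¹ - (y + y⁻¹) = (x - y) * (x * y - 1) / (x * y) := by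
    field_simp
    ring
  have h2 : 0 < (x - y) * (x * y - 1) / (x * y) := by
    apply div_pos _ (by positivity)
    apply mul_pos (by linarith)
    nlinarith
  linarith

theorem p_UPW (hCHS : Stmt_CHS) : Stmt_UPW := by
  intro C z w hC1 hC2 hz hcc hJ
  have hw1 := hJ.1
  have hr : 0 < ‖z‖ := norm_pos_iff.mpr hz
  have hS := hCHS 1 ((1 + 3 * C) / 4) z w one_pos (by linarith) hz hJ
  have hh1 : hh 1 z = (‖z‖ + ‖z‖⁻¹) / 2 := by
    rw [hh]; simp
  have hge : 1 ≤ hh 1 z := by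
    rw [hh1]
    have : 2 ≤ ‖z‖ + ‖z‖⁻¹ := by
      have h2 : ‖z‖ + ‖z‖⁻¹ - 2 = (‖z‖ - 1) ^ 2 / ‖z‖ := by
        field_simp
        ring
      have h3 : 0 ≤ (‖z‖ - 1) ^ 2 / ‖z‖ := by positivity
      linarith
    linarith
  have hc1 : cc z ≤ 1 := by
    rw [cc, div_le_one hr]
    exact (le_abs_self _).trans (Complex.abs_re_le_norm z)
  have ht : (max ‖z‖ ‖z‖⁻¹) ^ 2 + ((max ‖z‖ ‖z‖⁻¹) ^ 2)⁻¹ = 4 * hh 1 z ^ 2 - 2 := by
    rw [hh1]
    rcases le_total ‖z‖ ‖z‖⁻¹ with h | h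
    · rw [max_eq_right h]
      field_simp
      ring
    · rw [max_eq_left h]
      field_simp
      ring
  have ht1 : 1 ≤ max ‖z‖ ‖z‖⁻¹ := by
    by_contra hcon
    push Not at hcon
    have h1 := lt_of_le_of_lt (le_max_left ‖z‖ ‖z‖⁻¹) hcon
    have h2 := lt_of_le_of_lt (le_max_right ‖z‖ ‖z‖⁻¹) hcon
    have h3 := mul_lt_one_of_nonneg_of_lt_one_left hr.le h1 h2.le
    rw [mul_inv_cancel₀ hr.ne'] at h3
    linarith
  generalize max ‖z‖ ‖z‖⁻¹ = t at ht ht1 ⊢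
  generalize hh 1 z = h at hS hge ht
  generalize cc z = c at hS hc1 hcc
  generalize hB : (1 + 3 * C) / 4 = B at hS
  have hs : 0 < c + B := by linarith
  have hcB : c + B ≤ 1 + c * B := by nlinarith
  have hsq : √(h ^ 2 + 2 * h * c * B + B ^ 2 + c ^ 2 - 1) ≤ (c + B) + (h - 1) * (1 + c * B) / (c + B) := by
    apply Real.sqrt_le_iff.mpr
    refine ⟨?_, ?_⟩
    · have : 0 ≤ (h - 1) * (1 + c * B) / (c + B) :=
        div_nonneg (mul_nonneg (by linarith) (by linarith)) hs.le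
      linarith
    · have h1 : ((c + B) + (h - 1) * (1 + c * B) / (c + B)) ^ 2 =
          (c + B) ^ 2 + 2 * ((h - 1) * (1 + c * B)) + (h - 1) ^ 2 * ((1 + c * B) / (c + B)) ^ 2 := by
        field_simp
        ring
      rw [h1]
      have h2 : 1 ≤ (1 + c * B) / (c + B) := by rwa [one_le_div hs]
      have h3 : 1 ≤ ((1 + c * B) / (c + B)) ^ 2 := one_le_pow₀ h2
      nlinarith [mul_le_mul_of_nonneg_left h3 (sq_nonneg (h - 1))]
  have hmain : (1 + B) * (‖w‖ + ‖w‖⁻¹) ≤ (1 + B) * (2 + 8 * (h - 1)) := by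
    rw [hS]
    have h4 : 2 * (h - c) + 2 * ((c + B) + (h - 1) * (1 + c * B) / (c + B)) =
        2 * (1 + B) + 2 * (h - 1) * ((1 + c) * (1 + B) / (c + B)) := by
      field_simp
      ring
    have h5 : (1 + c) * (1 + B) / (c + B) ≤ 4 * (1 + B) := by
      rw [div_le_iff₀ hs]
      nlinarith
    have h6 : 2 * (h - 1) * ((1 + c) * (1 + B) / (c + B)) ≤ 2 * (h - 1) * (4 * (1 + B)) :=
      mul_le_mul_of_nonneg_left h5 (by linarith)
    nlinarith
  have hB1 : 0 < 1 + B := by linarith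
  have hw2 : ‖w‖ + ‖w‖⁻¹ ≤ 2 + 8 * (h - 1) := le_of_mul_le_mul_left hmain hB1
  apply UPW_mono hw1 (one_le_pow₀ ht1)
  rw [ht]
  nlinarith [sq_nonneg (h - 1)]

end Pool.Agent.Work.MP_ce2d68_np
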