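import Pool.Agent.Work.MP_ce2d68_st_helper90.All
import Pool.Agent.Work.MP_ce2d68_np.B_CHP
import Pool.Agent.Work.MP_ce2d68_np.B_CHX
import Pool.Agent.Work.MP_ce2d68_np.B_CHV
import Pool.Agent.Work.MP_ce2d68_np.B_CHS
import Pool.Agent.Work.MP_ce2d68_np.B_UPW
import Pool.Agent.Work.MP_ce2d68_np.B_LOW
import Pool.Agent.Work.MP_ce2d68_np.B_GAP
import Pool.Agent.Work.MP_ce2d68_np.B_HAD
import Pool.Agent.Work.MP_ce2d68_np.B_SUMK
import Pool.Agent.Work.MP_ce2d68_np.B_VDM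
import Pool.Agent.Work.MP_ce2d68_np.B_LEM
import Pool.Agent.Work.MP_ce2d68_np.B_UPB
import Pool.Agent.Work.MP_ce2d68_np.B_DOB
import Pool.Agent.Work.MP_ce2d68_np.B_LOC
import Pool.Agent.Work.MP_ce2d68_np.B_ESL
import Pool.Agent.Work.MP_ce2d68_np.B_STA

/-! All blocks of the theorem on the sector constants near 180 degrees. -/

set_option autoImplicit false

namespace Pool.Agent.Work.MP_ce2d68_np

open Pool.Agent.Work.MP_ce2d68_st

theorem f_UPW : Stmt_UPW := p_UPW p_CHS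
theorem f_LOW : Stmt_LOW := p_LOW p_CHS
theorem f_GAP : Stmt_GAP := p_GAP p_CHS
theorem f_VDM : Stmt_VDM := p_VDM p_CHP p_CHX p_CHV f_UPW p_HAD p_SUMK helper90.p_BAS helper90.p_DSC
theorem f_LEM : Stmt_LEM := p_LEM helper54.stmt_TOPP helper6.stmt_MAXP helper30.stmt_EIS
  helper90.p_ACHV helper36.stmt_BIG
theorem f_UPB : Stmt_UPB := p_UPB f_LEM p_CHP p_CHX p_CHV f_LOW f_GAP
theorem f_LOC : Stmt_LOC := p_LOC f_VDM p_DOB
theorem f_ESL : Stmt_ESL := p_ESL f_VDM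
theorem f_STA : Stmt_STA := p_STA f_LOC f_UPB helper90.p_TRL

end Pool.Agent.Work.MP_ce2d68_np
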