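import Mathlib
import Pool.Agent.Work.MP_ce2d68_np.Interface

set_option autoImplicit false

open Polynomial Filter Topology
open scoped ComplexConjugate

namespace Pool.Agent.Work.MP_ce2d68_np

open Pool.Agent.Work.MP_ce2d68_st

/-- index of the Chebyshev factor -/
def VDM_k (d j : ℕ) : ℕ := min (j / 3) (d - 1 - j)

/-- the test polynomials -/
noncomputable def VDM_p (B : ℝ) (d j : ℕ) : ℂ[X] :=
  if VDM_k d j = 0 then X ^ j else X ^ (j - 2 * VDM_k d j) * EE 1 B (VDM_k d j)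

theorem VDM_p_monic (hCHP : Stmt_CHP) (B : ℝ) (d j : ℕ) :
    (VDM_p B d j).Monic ∧ (VDM_p B d j).natDegree = j := by
  by_cases h : VDM_k d j = 0
  · simp only [VDM_p, h, if_true]
    exact ⟨monic_X_pow j, natDegree_X_pow j⟩
  · simp only [VDM_p, h, if_false]
    obtain ⟨h1, h2, -, -⟩ := hCHP 1 B (VDM_k d j) (by omega)
    refine ⟨(monic_X_pow _).mul h1, ?_⟩
    rw [(monic_X_pow _).natDegree_mul h1, natDegree_X_pow, h2]
    have h3 : VDM_k d j ≤ j / 3 := min_le_left _ _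
    omega

theorem VDM_bound (hCHX : Stmt_CHX) (hCHV : Stmt_CHV) (hUPW : Stmt_UPW) (C : ℝ) (hC1 : -1 ≤ C)
    (hC2 : C < 1) (z : ℂ) (hz : z ≠ 0) (hc : -C ≤ cc z) (d j : ℕ) (hj : j < d) :
    ‖(VDM_p ((1 + 3 * C) / 4) d j).eval z‖
      ≤ 2 * ((5 + 3 * C) / 8) ^ VDM_k d j * (max 1 ‖z‖) ^ (d - 1) := by
  have hz0 : 0 < ‖z‖ := norm_pos_iff.mpr hz
  have hm1 : 1 ≤ max 1 ‖z‖ := le_max_left _ _
  have hL0 : 0 < (5 + 3 * C) / 8 := by linarith
  by_cases h : VDM_k d j = 0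
  · simp only [VDM_p, h, if_true, pow_zero, mul_one]
    rw [eval_pow, eval_X, norm_pow]
    calc ‖z‖ ^ j ≤ (max 1 ‖z‖) ^ j := pow_le_pow_left₀ (norm_nonneg _) (le_max_right _ _) _
      _ ≤ (max 1 ‖z‖) ^ (d - 1) := pow_le_pow_right₀ hm1 (by omega)
      _ ≤ 2 * (max 1 ‖z‖) ^ (d - 1) := by
        have : 0 ≤ (max 1 ‖z‖) ^ (d - 1) := by positivity
        linarith
  · simp only [VDM_p, h, if_false]
    set k := VDM_k d j with hk
    have hk1 : k ≤ j / 3 := min_le_left _ _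
    have hk2 : k ≤ d - 1 - j := min_le_right _ _
    obtain ⟨w, hw⟩ := hCHX 1 ((1 + 3 * C) / 4) z one_pos (by linarith)
    have h1 := hCHV 1 ((1 + 3 * C) / 4) z w one_pos (by linarith) hz hw k
    have h2 := hUPW C z w hC1 hC2 hz hc hw
    have hw1 : 1 ≤ ‖w‖ := hw.1
    have hw0 : 0 < ‖w‖ := by linarith
    have hLeq : (1 * (1 + (1 + 3 * C) / 4) / 2 : ℝ) = (5 + 3 * C) / 8 := by ring
    rw [hLeq] at h1
    set L : ℝ := (5 + 3 * C) / 8 with hL
    rw [eval_mul, eval_pow, eval_X, norm_mul, norm_pow, h1, norm_mul, norm_pow, norm_mul,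
      Complex.norm_real, Real.norm_of_nonneg hL0.le]
    have h3 : ‖w ^ k + w⁻¹ ^ k‖ ≤ 2 * ‖w‖ ^ k := by
      refine (norm_add_le _ _).trans ?_
      rw [norm_pow, norm_pow, norm_inv]
      have h4 : ‖w‖⁻¹ ^ k ≤ ‖w‖ ^ k := by
        apply pow_le_pow_left₀ (by positivity)
        exact (inv_le_one_of_one_le₀ hw1).trans hw1
      linarith
    have h5 : ‖w‖ ^ k ≤ ((max ‖z‖ ‖z‖⁻¹) ^ 2) ^ k := pow_le_pow_left₀ hw0.le h2 k
    have h6 : ‖z‖ ^ (j - 2 * k) * ((L * ‖z‖) ^ k * ‖w ^ k + w⁻¹ ^ k‖)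
        ≤ 2 * L ^ k * (‖z‖ ^ (j - 2 * k) * ‖z‖ ^ k * ((max ‖z‖ ‖z‖⁻¹) ^ 2) ^ k) := by
      calc ‖z‖ ^ (j - 2 * k) * ((L * ‖z‖) ^ k * ‖w ^ k + w⁻¹ ^ k‖)
          ≤ ‖z‖ ^ (j - 2 * k) * ((L * ‖z‖) ^ k * (2 * ((max ‖z‖ ‖z‖⁻¹) ^ 2) ^ k)) := by
            apply mul_le_mul_of_nonneg_left _ (by positivity)
            apply mul_le_mul_of_nonneg_left _ (by positivity)
            linarith
        _ = _ := by rw [mul_pow]; ring
    refine h6.trans ?_
    apply mul_le_mul_of_nonneg_left _ (by positivity)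
    rcases le_total 1 ‖z‖ with h7 | h7
    · have h8 : max ‖z‖ ‖z‖⁻¹ = ‖z‖ := max_eq_left ((inv_le_one_of_one_le₀ h7).trans h7)
      rw [h8, ← pow_mul, ← pow_add, ← pow_add]
      calc ‖z‖ ^ (j - 2 * k + k + 2 * k) ≤ ‖z‖ ^ (d - 1) := pow_le_pow_right₀ h7 (by omega)
        _ ≤ (max 1 ‖z‖) ^ (d - 1) := pow_le_pow_left₀ hz0.le (le_max_right _ _) _
    · have h8 : max ‖z‖ ‖z‖⁻¹ = ‖z‖⁻¹ := by
        apply max_eq_right
        exact h7.trans ((one_le_inv₀ hz0).mpr h7)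
      rw [h8, ← pow_mul, ← pow_add, inv_pow]
      have h9 : j - 2 * k + k = (j - 3 * k) + 2 * k := by omega
      rw [h9, pow_add, mul_assoc, mul_inv_cancel₀ (by positivity), mul_one]
      calc ‖z‖ ^ (j - 3 * k) ≤ 1 := pow_le_one₀ hz0.le h7
        _ ≤ (max 1 ‖z‖) ^ (d - 1) := one_le_pow₀ hm1

theorem VDM_sq {d : ℕ} (v : Fin d → ℂ) :
    ‖(Matrix.vandermonde v).det‖ ^ 2 = ∏ i, ∏ j ∈ Finset.univ.erase i, ‖v i - v j‖ := by
  rw [Matrix.det_vandermonde, norm_prod, ← Finset.prod_pow]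
  have h1 : ∏ i : Fin d, ‖∏ j ∈ Finset.Ioi i, (v j - v i)‖ ^ 2
      = ∏ i : Fin d, ∏ j ∈ Finset.Ioi i, ‖v i - v j‖ * ‖v j - v i‖ := by
    apply Finset.prod_congr rfl
    intro i _
    rw [norm_prod, ← Finset.prod_pow]
    apply Finset.prod_congr rfl
    intro j _
    rw [norm_sub_rev (v i) (v j)]
    ring
  rw [h1, Finset.prod_prod_Ioi_mul_eq_prod_prod_off_diag (fun a b => ‖v b - v a‖)]
  apply Finset.prod_congr rfl
  intro i _
  apply Finset.prod_congr
  · ext j; simp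
  · intro j _
    rfl

theorem p_VDM (hCHP : Stmt_CHP) (hCHX : Stmt_CHX) (hCHV : Stmt_CHV) (hUPW : Stmt_UPW)
    (hHAD : Stmt_HAD) (hSUMK : Stmt_SUMK) (hBAS : Stmt_BAS) (hDSC : Stmt_DSC) : Stmt_VDM := by
  intro θ P h0 hπ hPm hPi hPX hsec
  obtain ⟨hd, hprod, hcard, -, hlogM⟩ := hBAS P hPm hPi
  set d := P.natDegree with hdd
  set C : ℝ := -Real.cos θ with hC
  have hC1 : -1 ≤ C := by rw [hC]; linarith [Real.cos_le_one θ]
  have hC2 : C < 1 := by
    rw [hC]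
    have := Real.cos_lt_cos_of_nonneg_of_le_pi h0 le_rfl hπ
    rw [Real.cos_pi] at this
    linarith
  set L : ℝ := (5 + 3 * C) / 8 with hL
  have hLlam : lam θ = L := by
    rw [lam, hL, hC, Real.cos_sq]
    have : 2 * (θ / 2) = θ := by ring
    rw [this]
    ring
  have hL0 : 1 / 4 ≤ L := by rw [hL]; linarith
  have hL1 : L < 1 := by rw [hL]; linarith
  -- enumeration of the roots
  obtain ⟨z, hzinj, hzim⟩ : ∃ z : Fin d → ℂ, Function.Injective z ∧
      Finset.univ.image z = rts P := by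
    have e : Fin d ≃ rts P := (Finset.equivFinOfCardEq hcard).symm
    refine ⟨fun i => (e i : ℂ), ?_, ?_⟩
    · intro i j hij
      exact e.injective (Subtype.ext hij)
    · ext x
      simp only [Finset.mem_image, Finset.mem_univ, true_and]
      constructor
      · rintro ⟨i, rfl⟩
        exact (e i).2
      · intro hx
        exact ⟨e.symm ⟨x, hx⟩, by simp⟩
  have hzmem : ∀ i, z i ∈ rts P := fun i => by
    rw [← hzim]; exact Finset.mem_image_of_mem _ (Finset.mem_univ i)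
  have hz0 : ∀ i, z i ≠ 0 := by
    intro i hi
    have h1 := hzmem i
    rw [hi, rts, Multiset.mem_toFinset, cp, mem_roots (hPm.map _).ne_zero, IsRoot.def,
      eval_map, eval₂_at_zero] at h1
    have h2 : P.coeff 0 = 0 := by
      have : ((P.coeff 0 : ℤ) : ℂ) = 0 := by simpa using h1
      exact_mod_cast this
    exact hPX (Polynomial.eq_of_monic_of_associated hPm monic_X
      ((irreducible_X.associated_of_dvd hPi (X_dvd_iff.2 h2)).symm))
  have hcz : ∀ i, -C ≤ cc (z i) := by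
    intro i
    rw [cc, ← Complex.cos_arg (hz0 i), hC, neg_neg, ← Real.cos_abs (z i).arg]
    exact Real.cos_le_cos_of_nonneg_of_le_pi (abs_nonneg _) hπ.le (hsec _ (hzmem i))
  set m : Fin d → ℝ := fun i => max 1 ‖z i‖ with hm
  have hm1 : ∀ i, 1 ≤ m i := fun i => le_max_left _ _
  have hm0 : ∀ i, 0 < m i := fun i => lt_of_lt_of_le one_pos (hm1 i)
  set B : ℝ := (1 + 3 * C) / 4 with hB
  set u : Fin d → ℝ := fun j => 2 * L ^ VDM_k d j with hu
  have hL0' : 0 < L := by linarith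
  have hu0 : ∀ j, 0 < u j := fun j => by simp only [hu]; positivity
  set A0 : Matrix (Fin d) (Fin d) ℂ := Matrix.of fun i j => (VDM_p B d j).eval (z i) with hA0
  set A : Matrix (Fin d) (Fin d) ℂ := Matrix.of fun i j =>
    ((m i ^ (d - 1))⁻¹ : ℝ) * (((u j)⁻¹ : ℝ) * A0 i j) with hA
  have hA1 : ∀ i j, ‖A i j‖ ≤ 1 := by
    intro i j
    have h1 := VDM_bound hCHX hCHV hUPW C hC1 hC2 (z i) (hz0 i) (hcz i) d j j.2
    have h2 : ‖A i j‖ = (m i ^ (d - 1))⁻¹ * ((u j)⁻¹ * ‖(VDM_p B d j).eval (z i)‖) := by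
      simp only [hA, hA0, Matrix.of_apply]
      have e1 : 0 ≤ (m i ^ (d - 1))⁻¹ := inv_nonneg.mpr (pow_nonneg (hm0 i).le _)
      have e2 : 0 ≤ (u j)⁻¹ := inv_nonneg.mpr (hu0 j).le
      rw [norm_mul, norm_mul, Complex.norm_real, Complex.norm_real, Real.norm_of_nonneg e1,
        Real.norm_of_nonneg e2]
    rw [h2]
    have h3 : 0 < m i ^ (d - 1) := pow_pos (hm0 i) _
    have h4 := hu0 j
    rw [← mul_assoc, ← mul_inv, inv_mul_le_iff₀ (by positivity), mul_one]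
    calc ‖(VDM_p B d j).eval (z i)‖ ≤ u j * m i ^ (d - 1) := h1
      _ = m i ^ (d - 1) * u j := mul_comm _ _
  have hdetA : A.det = (((∏ i, m i ^ (d - 1))⁻¹ : ℝ) : ℂ) * ((((∏ j, u j)⁻¹ : ℝ) : ℂ) * A0.det) := by
    have e1 := Matrix.det_mul_column (fun i => (((m i ^ (d - 1))⁻¹ : ℝ) : ℂ))
      (Matrix.of fun i j => (((u j)⁻¹ : ℝ) : ℂ) * A0 i j)
    have e2 := Matrix.det_mul_row (fun j => (((u j)⁻¹ : ℝ) : ℂ)) A0
    have e3 : A.det = (∏ i, (((m i ^ (d - 1))⁻¹ : ℝ) : ℂ)) * ((∏ j, (((u j)⁻¹ : ℝ) : ℂ)) * A0.det) := by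
      rw [← e2]
      exact e1
    rw [e3, ← Complex.ofReal_prod, ← Complex.ofReal_prod, Finset.prod_inv_distrib,
      Finset.prod_inv_distrib]
  have hdetV : (Matrix.vandermonde z).det = A0.det :=
    Matrix.det_eval_matrixOfPolynomials_eq_det_vandermonde z (fun j => VDM_p B d j)
      (fun j => (VDM_p_monic hCHP B d j).2) (fun j => (VDM_p_monic hCHP B d j).1)
  -- discriminant
  have hdisc : 1 ≤ ‖A0.det‖ ^ 2 := by
    rw [← hdetV, VDM_sq]
    have h1 := hDSC {P} (fun Q hQ => by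
      rw [Finset.mem_singleton] at hQ; subst hQ; exact ⟨hPm, hPi⟩) P (Finset.mem_singleton_self P)
    have h2 : rs {P} = rts P := by simp [rs]
    rw [h2, ← hzim, Finset.prod_image (fun i _ j _ h => hzinj h)] at h1
    refine h1.trans_eq ?_
    apply Finset.prod_congr rfl
    intro i _
    rw [← Finset.image_erase hzinj, Finset.prod_image (fun i _ j _ h => hzinj h)]
  have hhad := hHAD d A hA1
  set PM : ℝ := ∏ i, m i ^ (d - 1) with hPM
  set PU : ℝ := ∏ j, u j with hPU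
  have hPM0 : 0 < PM := Finset.prod_pos fun i _ => pow_pos (hm0 i) _
  have hPU0 : 0 < PU := Finset.prod_pos fun j _ => hu0 j
  have hnorm : ‖A0.det‖ = PM * PU * ‖A.det‖ := by
    rw [hdetA, norm_mul, norm_mul, Complex.norm_real, Complex.norm_real,
      Real.norm_of_nonneg (inv_nonneg.mpr hPM0.le), Real.norm_of_nonneg (inv_nonneg.mpr hPU0.le)]
    field_simp
  have hmain : 1 ≤ (PM * PU) ^ 2 * (d : ℝ) ^ d := by
    calc 1 ≤ ‖A0.det‖ ^ 2 := hdisc
      _ = (PM * PU) ^ 2 * ‖A.det‖ ^ 2 := by rw [hnorm]; ring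
      _ ≤ _ := mul_le_mul_of_nonneg_left hhad (by positivity)
  have hdR : (0 : ℝ) < d := by exact_mod_cast hd
  have hlog := Real.log_nonneg hmain
  rw [Real.log_mul (by positivity) (by positivity), Real.log_pow, Real.log_mul hPM0.ne' hPU0.ne',
    Real.log_pow] at hlog
  -- log PM
  have hlogPM : Real.log PM = ((d - 1 : ℕ) : ℝ) * Real.log (MM P) := by
    rw [hPM, Real.log_prod (fun i _ => (pow_pos (hm0 i) _).ne'), hlogM, ← hzim,
      Finset.sum_image (fun i _ j _ h => hzinj h), Finset.mul_sum]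
    apply Finset.sum_congr rfl
    intro i _
    rw [Real.log_pow, Real.posLog_eq_log_max_one (norm_nonneg _)]
  have hlogPU : Real.log PU = d * Real.log 2
      + (∑ j ∈ Finset.range d, ((min (j / 3) (d - 1 - j) : ℕ) : ℝ)) * Real.log L := by
    rw [hPU, Real.log_prod (fun j _ => (hu0 j).ne')]
    have h1 : ∀ j : Fin d, Real.log (u j) = Real.log 2 + (VDM_k d j : ℝ) * Real.log L := by
      intro j
      simp only [hu]
      rw [Real.log_mul (by norm_num) (by positivity), Real.log_pow]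
    rw [Finset.sum_congr rfl (fun j _ => h1 j), Finset.sum_add_distrib, Finset.sum_const,
      Finset.card_univ, Fintype.card_fin, nsmul_eq_mul, ← Finset.sum_mul,
      Fin.sum_univ_eq_sum_range (fun j => (VDM_k d j : ℝ)) d]
    rfl
  have hM0 : 0 ≤ Real.log (MM P) := by
    rw [hlogM]
    exact Finset.sum_nonneg fun a _ => Real.posLog_nonneg
  have hsum := hSUMK d
  set S : ℝ := ∑ j ∈ Finset.range d, ((min (j / 3) (d - 1 - j) : ℕ) : ℝ) with hS
  rw [hlogPM, hlogPU] at hlog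
  have hlogL : Real.log (1 / L) = -Real.log L := by rw [one_div, Real.log_inv]
  have hlogL0 : 0 ≤ -Real.log L := by
    have := Real.log_nonpos hL0'.le hL1.le
    linarith
  have hlogL4 : -Real.log L ≤ 2 * Real.log 2 := by
    have h1 : Real.log (1 / 4) ≤ Real.log L := Real.log_le_log (by norm_num) hL0
    have h2 : Real.log (1 / 4) = -(2 * Real.log 2) := by
      rw [one_div, Real.log_inv, show (4 : ℝ) = 2 ^ 2 by norm_num, Real.log_pow]
      norm_num
    linarith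
  have h64 : Real.log (64 * d) = 6 * Real.log 2 + Real.log d := by
    rw [Real.log_mul (by norm_num) hdR.ne', show (64 : ℝ) = 2 ^ 6 by norm_num, Real.log_pow]
    norm_num
  rw [hLlam, hlogL, h64]
  have hd1 : ((d - 1 : ℕ) : ℝ) ≤ d := by exact_mod_cast Nat.sub_le _ _
  have h10 : ((d - 1 : ℕ) : ℝ) * Real.log (MM P) ≤ d * Real.log (MM P) :=
    mul_le_mul_of_nonneg_right hd1 hM0
  have h11 : ((d : ℝ) ^ 2 / 8 - d) * (-Real.log L) ≤ S * (-Real.log L) :=
    mul_le_mul_of_nonneg_right hsum hlogL0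
  -- d * (goal)
  have h12 : (d : ℝ) * ((d : ℝ) / 8 * -Real.log L - 1 / 2 * (6 * Real.log 2 + Real.log d))
      ≤ d * Real.log (MM P) := by
    have h13 : (d : ℝ) * (-Real.log L) ≤ d * (2 * Real.log 2) :=
      mul_le_mul_of_nonneg_left hlogL4 hdR.le
    push_cast at hlog
    nlinarith
  exact le_of_mul_le_mul_left h12 hdR

end Pool.Agent.Work.MP_ce2d68_np
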